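import Mathlib

/-!
# Relations between odd functions: averaging over the stabilizer of a point
-/

set_option autoImplicit false

namespace Pool.Agent.V8H94.GC

open Finset

variable {G : Type*} [Group G] [Fintype G]

/-- The sum over a stabilizer of the values of an odd function vanishes if some element of the
stabilizer maps the argument to its opposite. -/
theorem sum_stab_zero [DecidableEq G] {X Y : Type*} [MulAction G X] [MulAction G Y] [DecidableEq Y]
    (bar : X → X) (hbG : ∀ (g : G) x, bar (g • x) = g • bar x) (e : X → ℝ)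
    (he : ∀ x, e (bar x) = - e x) (y : Y) (x : X) (g k : G) (hk : k • y = y)
    (hkx : k • x = bar x) : ∑ h ∈ univ.filter (fun h : G => h • y = y), e ((g * h) • x) = 0 := by
  have h1 : ∑ h ∈ univ.filter (fun h : G => h • y = y), e ((g * h) • x) =
      ∑ h ∈ univ.filter (fun h : G => h • y = y), e ((g * (h * k)) • x) := by
    symm
    refine Finset.sum_bij' (fun h _ => h * k) (fun h _ => h * k⁻¹) ?_ ?_ ?_ ?_ ?_
    · intro h hh
      rw [mem_filter] at hh ⊢
      exact ⟨mem_univ _, by rw [mul_smul, hk, hh.2]⟩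
    · intro h hh
      rw [mem_filter] at hh ⊢
      refine ⟨mem_univ _, ?_⟩
      rw [mul_smul]
      have h2 : k⁻¹ • y = y := by rw [inv_smul_eq_iff, hk]
      rw [h2, hh.2]
    · intro h _
      simp
    · intro h _
      simp
    · intro h _
      rfl
  have h2 : ∑ h ∈ univ.filter (fun h : G => h • y = y), e ((g * (h * k)) • x) =
      - ∑ h ∈ univ.filter (fun h : G => h • y = y), e ((g * h) • x) := by
    rw [← sum_neg_distrib]
    refine sum_congr rfl fun h _ => ?_
    rw [← mul_assoc, mul_smul (g * h) k x, hkx, ← hbG, he]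
  rw [h2] at h1
  linarith

/-- Suppose that for any two points which are not equal or opposite some element of the group fixes
the first point and maps the second one to its opposite. Then a relation between the translates of
finitely many odd functions splits into relations between the values of the functions. -/
theorem average {I : Type*} [Fintype I] {J : I → Type*} [∀ i, Fintype (J i)] (X : I → Type*)
    [∀ i, Fintype (X i)] [∀ i, MulAction G (X i)] (bar : ∀ i, X i → X i)
    (hbG : ∀ i (g : G) (x : X i), bar i (g • x) = g • bar i x)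
    (hbne : ∀ i (x : X i), bar i x ≠ x)
    (htr : ∀ i (x y : X i), ∃ g : G, g • x = y)
    (hind : ∀ i i', i ≠ i' → ∀ (x : X i) (y : X i'), ∃ k : G, k • x = x ∧ k • y = bar i' y)
    (hself : ∀ i (x y : X i), y ≠ x → y ≠ bar i x → ∃ k : G, k • x = x ∧ k • y = bar i y)
    (c e : ∀ z : Σ i, J i, X z.1 → ℝ) (hc : ∀ z x, c z (bar z.1 x) = - c z x)
    (he : ∀ z x, e z (bar z.1 x) = - e z x)
    (hrel : ∀ g : G, ∑ z, ∑ x, c z x * e z (g • x) = 0) (i : I) (x y : X i) :
    ∑ j, c ⟨i, j⟩ x * e ⟨i, j⟩ y = 0 := by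
  classical
  obtain ⟨g, hg⟩ := htr i x y
  set S : Finset G := univ.filter (fun h : G => h • x = x) with hS
  let A : ∀ z : Σ i, J i, X z.1 → ℝ := fun z w => ∑ h ∈ S, e z ((g * h) • w)
  have h0 : ∑ z, ∑ w, c z w * A z w = 0 := by
    have h1 : ∑ h ∈ S, ∑ z, ∑ w, c z w * e z ((g * h) • w) = 0 :=
      sum_eq_zero fun h _ => hrel (g * h)
    rw [← h1, sum_comm]
    refine sum_congr rfl fun z _ => ?_
    rw [sum_comm]
    refine sum_congr rfl fun w _ => ?_
    rw [mul_sum]
  have hA1 : ∀ (i' : I) (j : J i') (w : X i'), i' ≠ i → A ⟨i', j⟩ w = 0 := by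
    intro i' j w hi
    obtain ⟨k, hk1, hk2⟩ := hind i i' (Ne.symm hi) x w
    exact sum_stab_zero (bar i') (hbG i') (e ⟨i', j⟩) (he ⟨i', j⟩) x w g k hk1 hk2
  have hA2 : ∀ (j : J i) (w : X i), w ≠ x → w ≠ bar i x → A ⟨i, j⟩ w = 0 := by
    intro j w h1 h2
    obtain ⟨k, hk1, hk2⟩ := hself i x w h1 h2
    exact sum_stab_zero (bar i) (hbG i) (e ⟨i, j⟩) (he ⟨i, j⟩) x w g k hk1 hk2
  have hA3 : ∀ j : J i, A ⟨i, j⟩ x = S.card * e ⟨i, j⟩ y := by
    intro j
    have h1 : ∀ h ∈ S, e ⟨i, j⟩ ((g * h) • x) = e ⟨i, j⟩ y := by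
      intro h hh
      rw [hS, mem_filter] at hh
      rw [mul_smul, hh.2, hg]
    change ∑ h ∈ S, e ⟨i, j⟩ ((g * h) • x) = _
    rw [sum_congr rfl h1, sum_const, nsmul_eq_mul]
  have hA4 : ∀ j : J i, A ⟨i, j⟩ (bar i x) = - (S.card * e ⟨i, j⟩ y) := by
    intro j
    rw [← hA3, ← sum_neg_distrib]
    refine sum_congr rfl fun h _ => ?_
    rw [← hbG, he]
  rw [Fintype.sum_sigma] at h0
  rw [sum_eq_single i] at h0
  · have h2 : ∀ j : J i, ∑ w, c ⟨i, j⟩ w * A ⟨i, j⟩ w =
        2 * S.card * (c ⟨i, j⟩ x * e ⟨i, j⟩ y) := by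
      intro j
      rw [← sum_subset (subset_univ {x, bar i x})]
      · rw [sum_pair (hbne i x).symm, hA3, hA4, hc]
        ring
      · intro w _ hw
        rw [mem_insert, mem_singleton, not_or] at hw
        rw [hA2 j w hw.1 hw.2, mul_zero]
    rw [sum_congr rfl fun j _ => h2 j, ← mul_sum] at h0
    have h3 : (0 : ℝ) < S.card := by
      have h4 : (1 : G) ∈ S := by
        rw [hS, mem_filter]
        exact ⟨mem_univ _, one_smul G x⟩
      exact_mod_cast card_pos.2 ⟨1, h4⟩
    rcases mul_eq_zero.1 h0 with h4 | h4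
    · linarith
    · exact h4
  · intro i' _ hi
    refine sum_eq_zero fun j _ => sum_eq_zero fun w _ => ?_
    rw [hA1 i' j w hi, mul_zero]
  · intro h
    exact absurd (mem_univ i) h

end Pool.Agent.V8H94.GC
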