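import Mathlib

/-!
# Generic CM fields, slope vectors: definitions
-/

set_option autoImplicit false

namespace Pool.Agent.V8H94.GC

open NumberField

/-- The (CM) field `K` is generic: for any two complex embeddings `φ`, `ψ` of `K` which are neither
equal nor complex conjugate, some automorphism of the field of complex numbers is the identity on
`φ (K)` and the complex conjugation on `ψ (K)`. -/
def IsGeneric (K : Type*) [Field K] : Prop :=
  ∀ φ ψ : K →+* ℂ, ψ ≠ φ → ψ ≠ ComplexEmbedding.conjugate φ → ∃ σ : ℂ ≃+* ℂ,
    (∀ x, σ (φ x) = φ x) ∧ ∀ y, σ (ψ y) = (starRingEnd ℂ) (ψ y)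

/-- The slope vector of the number `π` for `p ^ a`: the function `2 v (τ π) - a` on the set of the
embeddings `τ` of `K` into the algebraic closure of the field of `p`-adic numbers, `v` the valuation
with the value one at `p`. -/
noncomputable def slopeVec {p : ℕ} [Fact p.Prime] (a : ℕ) {K : Type*} [Field K] (π : K) :
    (K →+* PadicAlgCl p) → ℝ :=
  fun τ => 2 * (- Real.logb p ‖τ π‖) - a

/-- `π` is a Weil number for `p ^ a` in the CM field `K`: an algebraic integer with
`π * conj π = p ^ a`. -/
def IsWeil (p a : ℕ) {K : Type*} [Field K] [NumberField K] [IsCMField K] (π : K) : Prop :=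
  IsIntegral ℤ π ∧ π * IsCMField.complexConj K π = (p : K) ^ a

/-- The CM field `K` is imaginary quadratic, or of degree four and not normal over `ℚ`, or its degree
is `2 l` for an odd prime number `l` and it contains no quadratic field. -/
def IsExample (K : Type) [Field K] [NumberField K] : Prop :=
  Module.finrank ℚ K = 2 ∨ (Module.finrank ℚ K = 4 ∧ ¬ IsGalois ℚ K) ∨
    ∃ l : ℕ, l.Prime ∧ l ≠ 2 ∧ Module.finrank ℚ K = 2 * l ∧
      ∀ F : IntermediateField ℚ K, Module.finrank ℚ F ≠ 2

end Pool.Agent.V8H94.GC
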