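import Mathlib
import Pool.Agent.H977R3.WN.Crit
import Pool.Agent.H204R3.CM.Nondeg
import Pool.Agent.Y137.MV.Defs
import Pool.Agent.V8H71.OD.Angle
import Pool.Agent.V8H94.GC.Average
import Pool.Agent.V8H94.GC.Defs

/-!
# Maximal angle rank from the linear independence of the slope vectors
-/

set_option autoImplicit false
set_option linter.unusedSectionVars false

namespace Pool.Agent.V8H94.GC

open NumberField Module Pool.Agent.H204R3.CM Pool.Agent.H977R3.WN Pool.Agent.H977R3.CM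
  Pool.Agent.Y137.MV Pool.Agent.V8H71.OD

section transfer

variable {I : Type} [Fintype I] {K : I → Type} [∀ i, Field (K i)] [∀ i, NumberField (K i)]
  [∀ i, IsCMField (K i)]

theorem conj_eq_cbar' {E : Type} [Field E] [NumberField E] [IsCMField E] (φ : E →+* ℂ) :
    ComplexEmbedding.conjugate φ = cbar φ := by
  ext x
  rw [ComplexEmbedding.conjugate_coe_eq]
  exact (IsCMField.complexEmbedding_complexConj E φ x).symm

/-- Relations between odd functions on the sets of embeddings of independent generic CM fields split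
into relations between the values of the functions. -/
theorem split_relations (hind : PairwiseIndep K) (hgen : ∀ i, IsGeneric (K i)) {J : I → Type}
    [∀ i, Fintype (J i)] {L : Type} [Field L] [NumberField L] [IsGalois ℚ L] (j : L →+* ℂ)
    (hj : ∀ i, ∀ ψ : K i →+* ℂ, ∃ φ : K i →+* L, j.comp φ = ψ)
    (c e : ∀ z : Σ i, J i, (K z.1 →+* L) → ℝ) (hc : ∀ z φ, c z (cbar φ) = - c z φ)
    (he : ∀ z φ, e z (cbar φ) = - e z φ)
    (hrel : ∀ g : L ≃ₐ[ℚ] L, ∑ z, ∑ φ, c z φ * e z (g • φ) = 0) (i : I) (φ ψ : K i →+* L) :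
    ∑ k, c ⟨i, k⟩ φ * e ⟨i, k⟩ ψ = 0 := by
  classical
  refine average (G := L ≃ₐ[ℚ] L) (J := J) (fun i => K i →+* L) (fun i => cbar)
    (fun i g φ => rfl) (fun i φ => cbar_ne φ) ?_ ?_ ?_ c e hc he hrel i φ ψ
  · intro i φ ψ
    exact MulAction.exists_smul_eq (L ≃ₐ[ℚ] L) φ ψ
  · intro i i' hii φ ψ
    obtain ⟨σ, hσ1, hσ2⟩ := hind i i' hii (j.comp φ) (j.comp ψ)
    obtain ⟨g, hg⟩ := exists_gal j σ
    refine ⟨g, ?_, ?_⟩
    · ext x
      apply j.injective
      rw [emb_smul_apply, ← hg]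
      exact hσ1 x
    · ext x
      apply j.injective
      rw [emb_smul_apply, ← hg]
      have h1 := RingHom.congr_fun (comp_cbar j ψ) x
      rw [ComplexEmbedding.conjugate_coe_eq] at h1
      exact (hσ2 x).trans h1.symm
  · intro i φ ψ h1 h2
    obtain ⟨σ, hσ1, hσ2⟩ := hgen i (j.comp φ) (j.comp ψ)
      (fun h => h1 (RingHom.ext fun x => j.injective (RingHom.congr_fun h x)))
      (fun h => h2 (RingHom.ext fun x => j.injective (by
        have h3 := RingHom.congr_fun (comp_cbar j φ) x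
        exact (RingHom.congr_fun h x).trans h3.symm)))
    obtain ⟨g, hg⟩ := exists_gal j σ
    refine ⟨g, ?_, ?_⟩
    · ext x
      apply j.injective
      rw [emb_smul_apply, ← hg]
      exact hσ1 x
    · ext x
      apply j.injective
      rw [emb_smul_apply, ← hg]
      have h1 := RingHom.congr_fun (comp_cbar j ψ) x
      rw [ComplexEmbedding.conjugate_coe_eq] at h1
      exact (hσ2 x).trans h1.symm

end transfer

section angle

variable {p : ℕ} [Fact p.Prime] {a : ℕ} {I : Type} [Fintype I]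
  {K : I → Type} [∀ i, Field (K i)] [∀ i, NumberField (K i)] [∀ i, IsCMField (K i)]

theorem ne_zero_of_weil {E : Type} [Field E] [NumberField E] [IsCMField E] {π : E}
    (hw : π * IsCMField.complexConj E π = (p : E) ^ a) : π ≠ 0 := by
  intro h0
  rw [h0, zero_mul] at hw
  exact pow_ne_zero a (Nat.cast_ne_zero.2 (Fact.out : p.Prime).ne_zero) hw.symm

/-- The slope vector is odd. -/
theorem slopeVec_cbar {E : Type} [Field E] [NumberField E] [IsCMField E] {π : E}
    (hw : π * IsCMField.complexConj E π = (p : E) ^ a) (τ : E →+* PadicAlgCl p) :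
    slopeVec a π (cbar τ) = - slopeVec a π τ := by
  have hπ0 : π ≠ 0 := ne_zero_of_weil hw
  have h3 : τ π ≠ 0 := (_root_.map_ne_zero τ).2 hπ0
  have h4 : lgp p (τ π) + lgp p (cbar τ π) = -a := by
    rw [← lgp_q p a]
    have h5 : cbar τ π ≠ 0 := (_root_.map_ne_zero _).2 hπ0
    unfold lgp
    rw [← Real.logb_mul (norm_ne_zero_iff.2 h3) (norm_ne_zero_iff.2 h5), ← norm_mul, cbar_apply,
      ← map_mul, hw, map_pow, map_natCast]
  unfold lgp at h4
  unfold slopeVec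
  linarith

/-- If the slope vectors in each field are linearly independent, the angle rank is maximal. -/
theorem angle_of_lin (hind : PairwiseIndep K) (hgen : ∀ i, IsGeneric (K i)) {J : I → Type}
    [∀ i, Fintype (J i)] {π : ∀ z : Σ i, J i, K z.1}
    (hw : ∀ z, π z * IsCMField.complexConj (K z.1) (π z) = (p : K z.1) ^ a)
    (hlin : ∀ i, LinearIndependent ℚ
      fun k : J i => (slopeVec a (π ⟨i, k⟩) : (K i →+* PadicAlgCl p) → ℝ)) :
    MaximalAngleRank (p ^ a) π := by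
  classical
  obtain ⟨L, _, _, j, hj⟩ := exists_galois K
  have hL : Algebra.IsAlgebraic ℚ L := inferInstance
  obtain ⟨jp⟩ : Nonempty (L →+* PadicAlgCl p) :=
    ⟨((IsAlgClosed.lift : L →ₐ[ℚ] PadicAlgCl p) : L →+* PadicAlgCl p)⟩
  have hπ0 : ∀ z, π z ≠ 0 := fun z => ne_zero_of_weil (hw z)
  intro r n hrel
  -- transfer the relation to `L`
  let EQ : ∀ i, (K i →+* L) ≃ (K i →+* ℂ) := fun i => Equiv.ofBijective (fun φ => j.comp φ)
    ⟨fun φ φ' h => RingHom.ext fun x => j.injective (RingHom.congr_fun h x), hj i⟩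
  let Y : Type := Σ z : (Σ i, J i), (K z.1 →+* L)
  let m : Y → ℤ := fun y => n ⟨y.1, j.comp y.2⟩
  have hrelL : ∏ y : Y, (y.2 (π y.1)) ^ m y = ((p : L) ^ a) ^ r := by
    apply j.injective
    rw [map_prod, map_zpow₀, map_pow, map_natCast]
    have h1 : (((p ^ a : ℕ) : ℂ)) ^ r = ((p : ℂ) ^ a) ^ r := by push_cast; rfl
    rw [← h1, ← hrel]
    refine Fintype.prod_equiv (Equiv.sigmaCongrRight fun z : (Σ i, J i) => EQ z.1) _ _ fun y => ?_
    rw [map_zpow₀]
    rfl
  -- valuations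
  let s : ∀ z : Σ i, J i, (K z.1 →+* L) → ℝ := fun z φ => slopeVec a (π z) (jp.comp φ)
  have hscb : ∀ z φ, s z (cbar φ) = - s z φ := fun z φ => slopeVec_cbar (hw z) (jp.comp φ)
  have hS : ∀ g : L ≃ₐ[ℚ] L, ∑ y : Y, (m y : ℝ) * s y.1 (g • y.2) =
      2 * (r * a) - a * ∑ y : Y, (m y : ℝ) := by
    intro g
    have h1 := congrArg (fun x => lgp p (jp (g x))) hrelL
    simp only [map_prod, map_zpow₀, map_pow, map_natCast] at h1
    rw [lgp_prod _ _ (fun y _ => zpow_ne_zero _ ((_root_.map_ne_zero jp).2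
      ((_root_.map_ne_zero g).2 ((_root_.map_ne_zero _).2 (hπ0 _))))), lgp_zpow, lgp_q] at h1
    have h2 : ∀ y : Y, (m y : ℝ) * s y.1 (g • y.2) =
        -2 * lgp p ((jp (g (y.2 (π y.1)))) ^ m y) - a * (m y : ℝ) := by
      intro y
      have h3 : s y.1 (g • y.2) = 2 * (- Real.logb p ‖jp (g (y.2 (π y.1)))‖) - a := rfl
      rw [h3, lgp_zpow]
      unfold lgp
      ring
    rw [Finset.sum_congr rfl (fun y _ => h2 y), Finset.sum_sub_distrib, ← Finset.mul_sum,
      ← Finset.mul_sum, h1]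
    ring
  -- the right side vanishes
  obtain ⟨c₀, hc₀⟩ := exists_gal j (starRingAut : ℂ ≃+* ℂ)
  have hcφ : ∀ (i : I) (φ : K i →+* L), c₀ • φ = cbar φ := by
    intro i φ
    refine RingHom.ext fun x => j.injective ?_
    have h1 := hc₀ (φ x)
    have h2 := RingHom.congr_fun (comp_cbar j φ) x
    rw [ComplexEmbedding.conjugate_coe_eq] at h2
    exact h1.symm.trans h2.symm
  have hC0 : 2 * ((r : ℝ) * a) - a * ∑ y : Y, (m y : ℝ) = 0 := by
    have h1 := hS 1
    have h2 := hS (1 * c₀)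
    have h3 : ∀ y : Y, (m y : ℝ) * s y.1 ((1 * c₀ : L ≃ₐ[ℚ] L) • y.2) =
        -((m y : ℝ) * s y.1 ((1 : L ≃ₐ[ℚ] L) • y.2)) := by
      intro y
      rw [mul_smul, hcφ]
      have h4 : (1 : L ≃ₐ[ℚ] L) • cbar y.2 = cbar ((1 : L ≃ₐ[ℚ] L) • y.2) := rfl
      rw [h4, hscb]
      ring
    rw [Finset.sum_congr rfl (fun y _ => h3 y), Finset.sum_neg_distrib, h1] at h2
    linarith
  -- the odd part of the relation
  let e : ∀ z : Σ i, J i, (K z.1 →+* L) → ℝ := fun z φ => (m ⟨z, φ⟩ : ℝ) - m ⟨z, cbar φ⟩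
  have hrel2 : ∀ g : L ≃ₐ[ℚ] L, ∑ z, ∑ φ, e z φ * s z (g • φ) = 0 := by
    intro g
    have h1 : ∑ z, ∑ φ, e z φ * s z (g • φ) =
        (∑ y : Y, (m y : ℝ) * s y.1 (g • y.2)) -
          ∑ y : Y, (m ⟨y.1, cbar y.2⟩ : ℝ) * s y.1 (g • y.2) := by
      rw [← Finset.sum_sub_distrib, ← Fintype.sum_sigma (fun y : Y => e y.1 y.2 * s y.1 (g • y.2))]
      refine Finset.sum_congr rfl fun y _ => ?_
      simp only [e]
      ring
    have h3 : ∑ y : Y, (m ⟨y.1, cbar y.2⟩ : ℝ) * s y.1 (g • y.2) =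
        - ∑ y : Y, (m y : ℝ) * s y.1 (g • y.2) := by
      rw [← Finset.sum_neg_distrib]
      let E : Y ≃ Y :=
        { toFun := fun y => ⟨y.1, cbar y.2⟩
          invFun := fun y => ⟨y.1, cbar y.2⟩
          left_inv := by
            rintro ⟨i, φ⟩
            simp only [cbar_cbar]
          right_inv := by
            rintro ⟨i, φ⟩
            simp only [cbar_cbar] }
      refine Fintype.sum_equiv E _ _ fun y => ?_
      change (m ⟨y.1, cbar y.2⟩ : ℝ) * s y.1 (g • y.2) =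
        -((m ⟨y.1, cbar y.2⟩ : ℝ) * s y.1 (g • cbar y.2))
      have h4 : g • cbar y.2 = cbar (g • y.2) := rfl
      rw [h4, hscb]
      ring
    rw [h1, h3, hS, hC0]
    ring
  rintro ⟨i, k⟩ φ
  obtain ⟨ψ, rfl⟩ := hj i φ
  have h1 : ∀ τ : K i →+* PadicAlgCl p, ∑ k, e ⟨i, k⟩ ψ * slopeVec a (π ⟨i, k⟩) τ = 0 := by
    intro τ
    obtain ⟨χ, rfl⟩ := factor j (hj i) jp τ
    exact split_relations hind hgen j hj e s (fun z φ => by
      simp only [e, cbar_cbar]
      ring) hscb hrel2 i ψ χ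
  have h2 := Fintype.linearIndependent_iff.1 (hlin i)
    (fun k => ((m ⟨⟨i, k⟩, ψ⟩ - m ⟨⟨i, k⟩, cbar ψ⟩ : ℤ) : ℚ)) (by
      funext τ
      rw [Finset.sum_apply, Pi.zero_apply, ← h1 τ]
      refine Finset.sum_congr rfl fun k _ => ?_
      rw [Pi.smul_apply, Rat.smul_def]
      simp only [e]
      push_cast
      rfl) k
  have h3 : m ⟨⟨i, k⟩, ψ⟩ = m ⟨⟨i, k⟩, cbar ψ⟩ := by
    have h4 : m ⟨⟨i, k⟩, ψ⟩ - m ⟨⟨i, k⟩, cbar ψ⟩ = 0 := by exact_mod_cast h2
    linarith
  have h4 : m ⟨⟨i, k⟩, cbar ψ⟩ = n ⟨⟨i, k⟩, ComplexEmbedding.conjugate (j.comp ψ)⟩ := by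
    change n ⟨⟨i, k⟩, j.comp (cbar ψ)⟩ = _
    rw [comp_cbar]
  rw [← h4, ← h3]

end angle

end Pool.Agent.V8H94.GC
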