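import Mathlib
import Pool.Agent.V8H94.GC.Angle
import Pool.Agent.H485R3.Exact.ExoticMain

/-!
# The slope vectors of Weil numbers of maximal angle rank are linearly independent
-/

set_option autoImplicit false
set_option linter.unusedSectionVars false

namespace Pool.Agent.V8H94.GC

open NumberField Module Pool.Agent.H204R3.CM Pool.Agent.H977R3.WN Pool.Agent.H977R3.CM
  Pool.Agent.Y137.MV Pool.Agent.V8H71.OD

/-- Clearing denominators. -/
theorem exists_den {J : Type*} [Fintype J] (g : J → ℚ) :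
    ∃ (D : ℕ) (m : J → ℤ), D ≠ 0 ∧ ∀ k, (m k : ℚ) = D * g k := by
  classical
  refine ⟨∏ k, (g k).den, fun k => (g k).num * ∏ l ∈ Finset.univ.erase k, ((g l).den : ℤ),
    Finset.prod_ne_zero_iff.2 fun k _ => (g k).den_nz, fun k => ?_⟩
  have h1 : (∏ k, (g k).den) = (g k).den * ∏ l ∈ Finset.univ.erase k, (g l).den :=
    (Finset.mul_prod_erase _ _ (Finset.mem_univ k)).symm
  rw [h1]
  push_cast
  have h2 : (g k) = (g k).num / (g k).den := (Rat.num_div_den (g k)).symm
  have h3 : ((g k).den : ℚ) ≠ 0 := Nat.cast_ne_zero.2 (g k).den_nz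
  have h4 : ((g k).den : ℚ) * g k = (g k).num := by
    rw [mul_comm]; exact Rat.mul_den_eq_num (g k)
  rw [mul_right_comm, h4]

theorem zpow_sum' {F : Type*} [Field F] {x : F} (hx : x ≠ 0) {J : Type*} (s : Finset J)
    (f : J → ℤ) : x ^ (∑ k ∈ s, f k) = ∏ k ∈ s, x ^ f k := by
  classical
  induction s using Finset.induction_on with
  | empty => simp
  | insert a s ha ih => rw [Finset.sum_insert ha, Finset.prod_insert ha, zpow_add₀ hx, ih]

variable {p : ℕ} [Fact p.Prime] {a : ℕ} {I : Type} [Fintype I]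
  {K : I → Type} [∀ i, Field (K i)] [∀ i, NumberField (K i)] [∀ i, IsCMField (K i)]

/-- A product of quotients `π / conj π` of Weil numbers with vanishing slopes is a root of unity. -/
theorem root_of_slopes {E : Type} [Field E] [NumberField E] [IsCMField E] {J : Type} [Fintype J]
    {π : J → E} (hint : ∀ k, IsIntegral ℤ (π k))
    (hw : ∀ k, π k * IsCMField.complexConj E (π k) = (p : E) ^ a) (m : J → ℤ)
    (hm : ∀ τ : E →+* PadicAlgCl p, ∑ k, (m k : ℝ) * slopeVec a (π k) τ = 0) :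
    ∃ r : ℕ, 0 < r ∧ (∏ k, (π k / IsCMField.complexConj E (π k)) ^ m k) ^ r = 1 := by
  classical
  obtain ⟨L, _, _, j, hj⟩ := exists_galois (fun _ : Unit => E)
  have φ₀ : E →+* ℂ := Classical.arbitrary _
  obtain ⟨φ, hφ⟩ := hj () φ₀
  have hπ0 : ∀ k, π k ≠ 0 := fun k => ne_zero_of_weil (hw k)
  have hπc0 : ∀ k, IsCMField.complexConj E (π k) ≠ 0 := fun k => by
    simpa using hπ0 k
  set β : E := ∏ k, (π k / IsCMField.complexConj E (π k)) ^ m k with hβ
  have hnum : ∀ (ψ : E →+* ℂ) k, ‖ψ (π k)‖ ^ 2 = (p : ℝ) ^ a := by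
    intro ψ k
    have h1 := congrArg (fun x => ‖ψ x‖) (hw k)
    simp only [map_mul, norm_mul, map_pow, map_natCast, norm_pow] at h1
    rw [IsCMField.complexEmbedding_complexConj, RCLike.norm_conj] at h1
    rw [pow_two, h1, Complex.norm_natCast]
  have hp1 : ∀ (l : ℕ) [Fact l.Prime] (e : L →ₐ[ℚ] PadicAlgCl l), ‖e (φ β)‖ ≤ 1 := by
    intro l _ e
    let τ : E →+* PadicAlgCl l := (e : L →+* PadicAlgCl l).comp φ
    change ‖τ β‖ ≤ 1
    by_cases hl : l = p
    · subst hl
      have h0 : τ β ≠ 0 := by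
        rw [_root_.map_ne_zero, hβ]
        exact Finset.prod_ne_zero_iff.2 fun k _ => zpow_ne_zero _ (div_ne_zero (hπ0 k) (hπc0 k))
      have h1 : lgp l (τ β) = 0 := by
        rw [hβ, map_prod, lgp_prod _ _ (fun k _ => by
          rw [_root_.map_ne_zero]
          exact zpow_ne_zero _ (div_ne_zero (hπ0 k) (hπc0 k)))]
        rw [← neg_eq_zero, ← Finset.sum_neg_distrib, ← hm τ]
        refine Finset.sum_congr rfl fun k _ => ?_
        rw [map_zpow₀, lgp_zpow, map_div₀, neg_mul_eq_mul_neg]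
        congr 1
        have h2 : lgp l (τ (π k) / τ (IsCMField.complexConj E (π k))) =
            lgp l (τ (π k)) - lgp l (τ (IsCMField.complexConj E (π k))) := by
          unfold lgp
          rw [norm_div, Real.logb_div (norm_ne_zero_iff.2 ((_root_.map_ne_zero τ).2 (hπ0 k)))
            (norm_ne_zero_iff.2 ((_root_.map_ne_zero τ).2 (hπc0 k)))]
        have h3 := slopeVec_cbar (a := a) (hw k) τ
        have h4 : slopeVec a (π k) (cbar τ) =
            2 * (- lgp l (τ (IsCMField.complexConj E (π k)))) - a := rfl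
        have h5 : slopeVec a (π k) τ = 2 * (- lgp l (τ (π k))) - a := rfl
        rw [h2]
        linarith
      have h2 : ‖τ β‖ = 1 := by
        have h3 : (0 : ℝ) < ‖τ β‖ := norm_pos_iff.2 h0
        have h4 : (1 : ℝ) < l := by exact_mod_cast (Fact.out : l.Prime).one_lt
        unfold lgp at h1
        rw [Real.logb_eq_zero] at h1
        rcases h1 with h1 | h1 | h1 | h1 | h1 | h1
        · linarith
        · linarith
        · linarith
        · linarith
        · exact h1
        · linarith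
      exact h2.le
    · have h1 : ∀ k, ‖τ (π k)‖ = 1 := fun k =>
        Pool.Agent.H485R3.Exact.norm_eq_one_of_ne p a (π k) (hint k) (fun ψ => hnum ψ k) l hl τ
      have h2 : ∀ k, ‖τ (IsCMField.complexConj E (π k))‖ = 1 := fun k =>
        Pool.Agent.H485R3.Exact.norm_eq_one_of_ne p a (π k) (hint k) (fun ψ => hnum ψ k) l hl
          (τ.comp (IsCMField.complexConj E : E →+* E))
      rw [hβ, map_prod, norm_prod]
      refine le_of_eq (Finset.prod_eq_one fun k _ => ?_)
      rw [map_zpow₀, norm_zpow, map_div₀, norm_div, h1, h2, div_one, one_zpow]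
  have hp2 : ∀ χ : L →ₐ[ℚ] ℂ, ‖χ (φ β)‖ = 1 := by
    intro χ
    let ψ : E →+* ℂ := (χ : L →+* ℂ).comp φ
    change ‖ψ β‖ = 1
    rw [hβ, map_prod, norm_prod]
    refine Finset.prod_eq_one fun k _ => ?_
    have h1 : ‖ψ (π k)‖ ≠ 0 := norm_ne_zero_iff.2 ((_root_.map_ne_zero ψ).2 (hπ0 k))
    rw [map_zpow₀, norm_zpow, map_div₀, norm_div, IsCMField.complexEmbedding_complexConj,
      RCLike.norm_conj, div_self h1, one_zpow]
  obtain ⟨r, hr, h⟩ := Pool.Agent.H485R3.Exact.root_of_unity (φ β) hp1 hp2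
  refine ⟨r, hr, φ.injective ?_⟩
  rw [map_pow, h, map_one]

theorem zpow_aux {F : Type*} [Field F] (x y : F) (m : ℤ) (r : ℕ) :
    x ^ ((r : ℤ) * m) * y ^ (-((r : ℤ) * m)) = ((x / y) ^ m) ^ r := by
  rw [← zpow_natCast, ← zpow_mul, mul_comm m, div_zpow, zpow_neg, div_eq_mul_inv]

/-- Multiplicative relations given by exponents at one point of each member of a family. -/
theorem prod_family {Y J : Type*} [Fintype Y] [Fintype J] [DecidableEq Y] (v : Y → ℂ)
    (hv : ∀ y, v y ≠ 0) (P Q : J → Y) (e : J → ℤ) :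
    ∏ y, v y ^ (∑ k : J, e k * ((if y = P k then 1 else 0) - (if y = Q k then 1 else 0))) =
      ∏ k : J, (v (P k) ^ e k * v (Q k) ^ (- e k)) := by
  have h2 : ∀ y : Y, v y ^ (∑ k : J, e k * ((if y = P k then 1 else 0) -
      (if y = Q k then 1 else 0))) =
        ∏ k : J, ((if y = P k then v (P k) ^ e k else 1) *
          (if y = Q k then v (Q k) ^ (- e k) else 1)) := by
    intro y
    rw [zpow_sum' (hv y)]
    refine Finset.prod_congr rfl fun k _ => ?_
    rw [mul_sub, sub_eq_add_neg, zpow_add₀ (hv y)]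
    congr 1
    · split_ifs with h
      · rw [mul_one, h]
      · rw [mul_zero, zpow_zero]
    · split_ifs with h
      · rw [mul_one, h]
      · rw [mul_zero, neg_zero, zpow_zero]
  rw [Finset.prod_congr rfl (fun y _ => h2 y), Finset.prod_comm]
  refine Finset.prod_congr rfl fun k _ => ?_
  rw [Finset.prod_mul_distrib, Finset.prod_ite_eq', Finset.prod_ite_eq',
    if_pos (Finset.mem_univ _), if_pos (Finset.mem_univ _)]

theorem eval_family {Y J : Type*} [Fintype J] [DecidableEq Y] (P Q : J → Y)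
    (hP : Function.Injective P) (hQ : Function.Injective Q) (hPQ : ∀ k k', P k ≠ Q k')
    (e : J → ℤ) (k : J) :
    (∑ k' : J, e k' * ((if P k = P k' then 1 else 0) - (if P k = Q k' then 1 else 0))) = e k ∧
    (∑ k' : J, e k' * ((if Q k = P k' then 1 else 0) - (if Q k = Q k' then 1 else 0))) =
      - e k := by
  classical
  constructor
  · rw [Finset.sum_eq_single k]
    · rw [if_pos rfl, if_neg (hPQ k k), sub_zero, mul_one]
    · intro k' _ hk
      rw [if_neg (fun h => hk (hP h).symm), if_neg (hPQ k k'), sub_zero, mul_zero]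
    · intro h
      exact absurd (Finset.mem_univ _) h
  · rw [Finset.sum_eq_single k]
    · rw [if_pos rfl, if_neg (fun h => hPQ k k h.symm), zero_sub, mul_neg, mul_one]
    · intro k' _ hk
      rw [if_neg (fun h => hPQ k' k h.symm), if_neg (fun h => hk (hQ h).symm), sub_zero, mul_zero]
    · intro h
      exact absurd (Finset.mem_univ _) h

/-- If the angle rank is maximal, the slope vectors in each field are linearly independent. -/
theorem lin_of_angle {J : I → Type} [∀ i, Fintype (J i)] {π : ∀ z : Σ i, J i, K z.1}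
    (hint : ∀ z, IsIntegral ℤ (π z))
    (hw : ∀ z, π z * IsCMField.complexConj (K z.1) (π z) = (p : K z.1) ^ a)
    (hang : MaximalAngleRank (p ^ a) π) (i : I) : LinearIndependent ℚ
      fun k : J i => (slopeVec a (π ⟨i, k⟩) : (K i →+* PadicAlgCl p) → ℝ) := by
  classical
  rw [Fintype.linearIndependent_iff]
  intro g hg
  obtain ⟨D, m, hD, hm⟩ := exists_den g
  have hsum : ∀ τ : K i →+* PadicAlgCl p, ∑ k, (m k : ℝ) * slopeVec a (π ⟨i, k⟩) τ = 0 := by
    intro τ
    have h1 := congrFun hg τ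
    rw [Finset.sum_apply, Pi.zero_apply] at h1
    have h2 : ∑ k, (m k : ℝ) * slopeVec a (π ⟨i, k⟩) τ =
        D * ∑ k, (g k • slopeVec a (π ⟨i, k⟩)) τ := by
      rw [Finset.mul_sum]
      refine Finset.sum_congr rfl fun k _ => ?_
      rw [Pi.smul_apply, Rat.smul_def, ← mul_assoc]
      congr 1
      exact_mod_cast congrArg (fun x : ℚ => (x : ℝ)) (hm k)
    rw [h2, h1, mul_zero]
  let x : J i → K i := fun k => π ⟨i, k⟩
  have hint' : ∀ k, IsIntegral ℤ (x k) := fun k => hint ⟨i, k⟩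
  have hw' : ∀ k, x k * IsCMField.complexConj (K i) (x k) = (p : K i) ^ a := fun k => hw ⟨i, k⟩
  have hsum' : ∀ τ : K i →+* PadicAlgCl p, ∑ k, (m k : ℝ) * slopeVec a (x k) τ = 0 := hsum
  obtain ⟨r, hr, hroot⟩ := root_of_slopes hint' hw' m hsum'
  obtain ⟨φ₀⟩ : Nonempty (K i →+* ℂ) := inferInstance
  have hne : ComplexEmbedding.conjugate φ₀ ≠ φ₀ := by
    rw [conj_eq_cbar']
    exact cbar_ne φ₀
  have hπ0 : ∀ z, π z ≠ 0 := fun z => ne_zero_of_weil (hw z)
  let P : J i → Σ z : (Σ i, J i), (K z.1 →+* ℂ) := fun k => ⟨⟨i, k⟩, φ₀⟩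
  let Q : J i → Σ z : (Σ i, J i), (K z.1 →+* ℂ) := fun k =>
    ⟨⟨i, k⟩, ComplexEmbedding.conjugate φ₀⟩
  have hP : Function.Injective P := by
    intro k k' h
    exact eq_of_heq (Sigma.mk.inj (Sigma.mk.inj h).1).2
  have hQ : Function.Injective Q := by
    intro k k' h
    exact eq_of_heq (Sigma.mk.inj (Sigma.mk.inj h).1).2
  have hPQ : ∀ k k', P k ≠ Q k' := by
    intro k k' h
    have h1 : k = k' := eq_of_heq (Sigma.mk.inj (Sigma.mk.inj h).1).2
    subst h1
    exact hne (eq_of_heq (Sigma.mk.inj h).2).symm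
  have hfam := prod_family (fun y : Σ z : (Σ i, J i), (K z.1 →+* ℂ) => y.2 (π y.1))
    (fun y => (_root_.map_ne_zero _).2 (hπ0 _)) P Q (fun k => (r : ℤ) * m k)
  have hone : ∏ k : J i, ((P k).2 (π (P k).1) ^ ((r : ℤ) * m k) *
      (Q k).2 (π (Q k).1) ^ (-((r : ℤ) * m k))) = 1 := by
    have h3 : ∀ k : J i, (P k).2 (π (P k).1) ^ ((r : ℤ) * m k) *
        (Q k).2 (π (Q k).1) ^ (-((r : ℤ) * m k)) =
        φ₀ (((π ⟨i, k⟩ / IsCMField.complexConj (K i) (π ⟨i, k⟩)) ^ m k) ^ r) := by
      intro k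
      rw [zpow_aux, map_pow, map_zpow₀, map_div₀, IsCMField.complexEmbedding_complexConj]
      rfl
    rw [Finset.prod_congr rfl (fun k _ => h3 k), ← map_prod, Finset.prod_pow, hroot, map_one]
  have hrel : ∏ y : Σ z : (Σ i, J i), (K z.1 →+* ℂ), (y.2 (π y.1)) ^
      (∑ k : J i, ((r : ℤ) * m k) * ((if y = P k then 1 else 0) - (if y = Q k then 1 else 0))) =
      (((p ^ a : ℕ) : ℂ)) ^ (0 : ℤ) := by
    rw [zpow_zero]
    exact hfam.trans hone
  intro k
  have h4 := hang 0 _ hrel ⟨i, k⟩ φ₀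
  have h5 := eval_family P Q hP hQ hPQ (fun k => (r : ℤ) * m k) k
  have h6 : (r : ℤ) * m k = - ((r : ℤ) * m k) := h5.1.symm.trans (h4.trans h5.2)
  have h9 : (r : ℤ) * m k = 0 := by linarith
  have h10 : m k = 0 := (mul_eq_zero.1 h9).resolve_left (Int.natCast_ne_zero.2 hr.ne')
  have h11 := hm k
  rw [h10, Int.cast_zero] at h11
  exact (mul_eq_zero.1 h11.symm).resolve_left (Nat.cast_ne_zero.2 hD)

end Pool.Agent.V8H94.GC
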