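import Mathlib

/-!
# Transitive actions on `2 l` points with an involution, `l` an odd prime
-/

set_option autoImplicit false

namespace Pool.Agent.V8H94.GC

open Finset Polynomial

/-- A vanishing rational combination of the powers of a primitive root of unity of prime order has
equal coefficients. -/
theorem const_of_sum_zero {l : ℕ} (hl : l.Prime) {ζ : ℂ} (hζ : IsPrimitiveRoot ζ l) (a : ℕ → ℚ)
    (h : ∑ k ∈ range l, (a k : ℂ) * ζ ^ k = 0) : ∀ k < l, a k = a 0 := by
  have hl0 : 0 < l := hl.pos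
  have hfact : Fact l.Prime := ⟨hl⟩
  set P : ℚ[X] := ∑ k ∈ range l, C (a k) * X ^ k with hP
  have hcoef : ∀ k, P.coeff k = if k < l then a k else 0 := by
    intro k
    rw [hP, finsetSum_coeff]
    simp only [coeff_C_mul, coeff_X_pow, mul_ite, mul_one, mul_zero]
    rw [sum_ite_eq]
    simp only [mem_range]
  have hroot : aeval ζ P = 0 := by
    rw [hP, map_sum, ← h]
    refine sum_congr rfl fun k _ => ?_
    rw [map_mul, aeval_C, map_pow, aeval_X]
    simp
  have hdvd : cyclotomic l ℚ ∣ P := by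
    rw [cyclotomic_eq_minpoly_rat hζ hl0]
    exact minpoly.dvd ℚ ζ hroot
  obtain ⟨Q, hQ⟩ := hdvd
  have hcyc : (cyclotomic l ℚ).natDegree = l - 1 := by
    rw [natDegree_cyclotomic, Nat.totient_prime hl]
  have hPdeg : P.natDegree ≤ l - 1 := by
    rw [natDegree_le_iff_coeff_eq_zero]
    intro N hN
    rw [hcoef, if_neg (by omega)]
  have hcoefc : ∀ k < l, (cyclotomic l ℚ).coeff k = 1 := by
    intro k hk
    rw [cyclotomic_prime, finsetSum_coeff]
    simp only [coeff_X_pow]
    rw [sum_ite_eq, if_pos (mem_range.2 hk)]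
  by_cases hQ0 : Q = 0
  · intro k hk
    have h1 : P = 0 := by rw [hQ, hQ0, mul_zero]
    have h2 := hcoef k
    have h3 := hcoef 0
    rw [if_pos hk, h1, coeff_zero] at h2
    rw [if_pos hl0, h1, coeff_zero] at h3
    rw [← h2, ← h3]
  · have hQdeg : Q.natDegree = 0 := by
      have h1 : P.natDegree = (cyclotomic l ℚ).natDegree + Q.natDegree := by
        rw [hQ, natDegree_mul (cyclotomic_ne_zero l ℚ) hQ0]
      omega
    rw [eq_C_of_natDegree_eq_zero hQdeg] at hQ
    intro k hk
    have h2 := hcoef k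
    have h3 := hcoef 0
    rw [if_pos hk, hQ, mul_comm, coeff_C_mul, hcoefc k hk] at h2
    rw [if_pos hl0, hQ, mul_comm, coeff_C_mul, hcoefc 0 hl0] at h3
    rw [← h2, ← h3]

variable {G X : Type*} [Group G] [Fintype G] [MulAction G X] [Fintype X] [DecidableEq X]

/-- The invariant kernel of a pair of points. -/
def ker (G : Type*) {X : Type*} [Group G] [Fintype G] [MulAction G X] [DecidableEq X]
    (bar : X → X) (x₀ y₀ x y : X) : ℚ :=
  ((univ.filter fun g : G => g • x₀ = x ∧ g • y₀ = y).card : ℚ) -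
    (univ.filter fun g : G => g • x₀ = x ∧ g • y₀ = bar y).card

omit [Fintype X] in
theorem card_filter_smul [DecidableEq G] (x₀ y₀ : X) (h : G) (x y : X) :
    (univ.filter fun g : G => g • x₀ = h • x ∧ g • y₀ = h • y).card =
      (univ.filter fun g : G => g • x₀ = x ∧ g • y₀ = y).card := by
  refine Finset.card_bij' (fun g _ => h⁻¹ * g) (fun g _ => h * g) ?_ ?_ ?_ ?_
  · intro g hg
    rw [mem_filter] at hg ⊢
    refine ⟨mem_univ _, ?_, ?_⟩
    · rw [mul_smul, hg.2.1, inv_smul_smul]
    · rw [mul_smul, hg.2.2, inv_smul_smul]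
  · intro g hg
    rw [mem_filter] at hg ⊢
    refine ⟨mem_univ _, ?_, ?_⟩
    · rw [mul_smul, hg.2.1]
    · rw [mul_smul, hg.2.2]
  · intro g _
    simp
  · intro g _
    simp

omit [Fintype X] in
theorem ker_smul [DecidableEq G] (bar : X → X) (hbG : ∀ (g : G) x, bar (g • x) = g • bar x)
    (x₀ y₀ : X) (h : G) (x y : X) : ker G bar x₀ y₀ (h • x) (h • y) = ker G bar x₀ y₀ x y := by
  unfold ker
  rw [hbG, card_filter_smul, card_filter_smul]

omit [Fintype X] in
theorem ker_bar (bar : X → X) (hbb : ∀ x, bar (bar x) = x) (x₀ y₀ x y : X) :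
    ker G bar x₀ y₀ x (bar y) = - ker G bar x₀ y₀ x y := by
  unfold ker
  rw [hbb]
  ring

omit [Fintype X] in
theorem ker_self (bar : X → X) (hbG : ∀ (g : G) x, bar (g • x) = g • bar x)
    (x₀ y₀ : X) (h1 : y₀ ≠ x₀) (h2 : y₀ ≠ bar x₀) (x : X) : ker G bar x₀ y₀ x x = 0 := by
  unfold ker
  have h3 : (univ.filter fun g : G => g • x₀ = x ∧ g • y₀ = x) = ∅ := by
    refine filter_eq_empty_iff.2 fun g _ hg => h1 ?_
    exact (MulAction.injective g) (hg.2.trans hg.1.symm)
  have h4 : (univ.filter fun g : G => g • x₀ = x ∧ g • y₀ = bar x) = ∅ := by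
    refine filter_eq_empty_iff.2 fun g _ hg => h2 ?_
    apply MulAction.injective g
    change g • y₀ = g • bar x₀
    rw [hg.2, ← hbG, hg.1]
  rw [h3, h4]
  simp

omit [Fintype X] in
theorem ker_pos (bar : X → X) (x₀ y₀ : X)
    (h : ¬ ∃ g : G, g • x₀ = x₀ ∧ g • y₀ = bar y₀) : 0 < ker G bar x₀ y₀ x₀ y₀ := by
  unfold ker
  have h4 : (univ.filter fun g : G => g • x₀ = x₀ ∧ g • y₀ = bar y₀) = ∅ :=
    filter_eq_empty_iff.2 fun g _ hg => h ⟨g, hg⟩
  have h5 : 0 < (univ.filter fun g : G => g • x₀ = x₀ ∧ g • y₀ = y₀).card :=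
    card_pos.2 ⟨1, by simp⟩
  rw [h4, card_empty, Nat.cast_zero, sub_zero]
  exact_mod_cast h5

/-- An element whose action has order `l` on `2 l` points, `l` an odd prime, with a commuting
involution without fixed points: the points are `t ^ k • x₁` and their opposites. -/
theorem exists_cycle [MulAction.IsPretransitive G X] {l : ℕ} (hl : l.Prime) (hl2 : l ≠ 2)
    (hcard : Fintype.card X = 2 * l) (bar : X → X) (hbb : ∀ x, bar (bar x) = x)
    (hbG : ∀ (g : G) x, bar (g • x) = g • bar x) (hbne : ∀ x, bar x ≠ x) :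
    ∃ (t : G) (x₁ : X), (∀ x : X, t ^ l • x = x) ∧
      (∀ i < l, ∀ j < l, t ^ i • x₁ = t ^ j • x₁ → i = j) ∧
      (∀ i < l, ∀ j < l, t ^ i • x₁ ≠ bar (t ^ j • x₁)) ∧
      (∀ x, ∃ i < l, x = t ^ i • x₁ ∨ x = bar (t ^ i • x₁)) := by
  classical
  have hfact : Fact l.Prime := ⟨hl⟩
  have hne : Nonempty X := by
    rw [← Fintype.card_pos_iff, hcard]
    have := hl.pos
    omega
  obtain ⟨x₀⟩ := hne
  -- an element of order `l` of the image of `G`
  let P : Subgroup (Equiv.Perm X) := (MulAction.toPermHom G X).range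
  have hP : l ∣ Nat.card P := by
    have htr : MulAction.IsPretransitive P X := by
      constructor
      intro x y
      obtain ⟨g, hg⟩ := MulAction.exists_smul_eq G x y
      exact ⟨⟨MulAction.toPermHom G X g, g, rfl⟩, hg⟩
    have h1 := MulAction.card_orbit_mul_card_stabilizer_eq_card_group P x₀
    have h2 : Fintype.card (MulAction.orbit P x₀) = 2 * l := by
      rw [← hcard]
      exact Fintype.card_congr ((Equiv.setCongr (MulAction.orbit_eq_univ P x₀)).trans
        (Equiv.Set.univ X))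
    rw [Nat.card_eq_fintype_card, ← h1, h2]
    exact Dvd.dvd.mul_right (Dvd.intro_left 2 rfl) _
  obtain ⟨τ, hτ⟩ := exists_prime_orderOf_dvd_card' l hP
  obtain ⟨t, ht⟩ := τ.2
  have htl : ∀ x : X, t ^ l • x = x := by
    intro x
    have h1 : (τ : Equiv.Perm X) ^ l = 1 := by
      have h2 : τ ^ l = 1 := by rw [← hτ]; exact pow_orderOf_eq_one τ
      exact_mod_cast congrArg Subtype.val h2
    rw [← ht, ← map_pow] at h1
    exact Equiv.Perm.congr_fun h1 x
  obtain ⟨x₁, hx₁⟩ : ∃ x : X, t • x ≠ x := by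
    by_contra hall
    push Not at hall
    have h1 : (τ : Equiv.Perm X) = 1 := by
      rw [← ht]
      ext x
      exact hall x
    have h2 : τ = 1 := Subtype.ext h1
    rw [h2, orderOf_one] at hτ
    exact hl.one_lt.ne hτ
  -- a power of `t` which fixes `x₁` is divisible by `l`
  have hfix : ∀ k : ℕ, t ^ k • x₁ = x₁ → l ∣ k := by
    intro k hk
    by_contra hnd
    have hcop : Nat.Coprime k l := (hl.coprime_iff_not_dvd.2 hnd).symm
    apply hx₁
    have h2 : ∀ n : ℕ, t ^ (k * n) • x₁ = x₁ := by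
      intro n
      induction n with
      | zero => simp
      | succ n ih => rw [mul_add, mul_one, pow_add, mul_smul, hk, ih]
    have h3 : ∀ n : ℕ, t ^ (l * n) • x₁ = x₁ := by
      intro n
      induction n with
      | zero => simp
      | succ n ih => rw [mul_add, mul_one, pow_add, mul_smul, htl, ih]
    obtain ⟨m, _, hm⟩ := Nat.exists_mul_mod_eq_one_of_coprime hcop hl.one_lt
    have h4 : k * m = l * (k * m / l) + 1 := by
      have h7 := Nat.div_add_mod (k * m) l
      omega
    have h5 := h2 m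
    rw [h4, pow_add, pow_one, mul_smul] at h5
    have h6 : t ^ (l * (k * m / l)) • (t • x₁) = t • x₁ := by
      rw [← mul_smul, ← pow_succ, pow_succ', mul_smul, h3]
    rwa [h6] at h5
  have hinj : ∀ i < l, ∀ j < l, t ^ i • x₁ = t ^ j • x₁ → i = j := by
    have aux : ∀ i < l, ∀ j < l, i ≤ j → t ^ i • x₁ = t ^ j • x₁ → i = j := by
      intro i hi j hj hij h
      obtain ⟨d, rfl⟩ := Nat.exists_eq_add_of_le hij
      rw [pow_add, mul_smul] at h
      have h1 := (MulAction.injective (t ^ i)) h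
      have h2 := hfix d h1.symm
      have h3 : d = 0 := Nat.eq_zero_of_dvd_of_lt h2 (by omega)
      omega
    intro i hi j hj h
    rcases le_total i j with hij | hij
    · exact aux i hi j hj hij h
    · exact (aux j hj i hi hij h.symm).symm
  have hdis : ∀ i < l, ∀ j < l, t ^ i • x₁ ≠ bar (t ^ j • x₁) := by
    -- `t ^ d • x₁ = bar x₁` is impossible
    have aux : ∀ d : ℕ, t ^ d • x₁ ≠ bar x₁ := by
      intro d h
      have h1 : t ^ (d + d) • x₁ = x₁ := by
        rw [pow_add, mul_smul, h, ← hbG, h, hbb]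
      have h2 := hfix (d + d) h1
      have h3 : l ∣ 2 * d := by rwa [two_mul]
      have h4 : l ∣ d := (Nat.Coprime.dvd_mul_left
        ((Nat.coprime_primes hl Nat.prime_two).2 hl2)).1 h3
      obtain ⟨m, rfl⟩ := h4
      have h5 : ∀ n : ℕ, t ^ (l * n) • x₁ = x₁ := by
        intro n
        induction n with
        | zero => simp
        | succ n ih => rw [mul_add, mul_one, pow_add, mul_smul, htl, ih]
      rw [h5] at h
      exact hbne x₁ h.symm
    intro i hi j hj h
    rcases le_total i j with hij | hij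
    · obtain ⟨d, rfl⟩ := Nat.exists_eq_add_of_le hij
      rw [pow_add, mul_smul, hbG] at h
      have h1 := congrArg bar ((MulAction.injective (t ^ i)) h)
      rw [hbb] at h1
      exact aux d h1.symm
    · obtain ⟨d, rfl⟩ := Nat.exists_eq_add_of_le hij
      rw [pow_add, mul_smul, hbG] at h
      exact aux d ((MulAction.injective (t ^ j)) h)
  refine ⟨t, x₁, htl, hinj, hdis, ?_⟩
  -- surjectivity by counting
  let f : Fin l × Bool → X := fun z =>
    if z.2 then t ^ (z.1 : ℕ) • x₁ else bar (t ^ (z.1 : ℕ) • x₁)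
  have hf : Function.Injective f := by
    rintro ⟨i, b⟩ ⟨j, b'⟩ h
    cases b <;> cases b'
    · have h1 : bar (t ^ (i : ℕ) • x₁) = bar (t ^ (j : ℕ) • x₁) := h
      have h2 := congrArg bar h1
      rw [hbb, hbb] at h2
      rw [Fin.ext (hinj i i.2 j j.2 h2)]
    · have h1 : bar (t ^ (i : ℕ) • x₁) = t ^ (j : ℕ) • x₁ := h
      exact absurd h1.symm (hdis j j.2 i i.2)
    · have h1 : t ^ (i : ℕ) • x₁ = bar (t ^ (j : ℕ) • x₁) := h
      exact absurd h1 (hdis i i.2 j j.2)
    · have h1 : t ^ (i : ℕ) • x₁ = t ^ (j : ℕ) • x₁ := h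
      rw [Fin.ext (hinj i i.2 j j.2 h1)]
  have hbij : Function.Bijective f := by
    rw [Fintype.bijective_iff_injective_and_card]
    refine ⟨hf, ?_⟩
    rw [Fintype.card_prod, Fintype.card_fin, Fintype.card_bool, hcard, mul_comm]
  intro x
  obtain ⟨⟨i, b⟩, h⟩ := hbij.2 x
  refine ⟨i, i.2, ?_⟩
  cases b
  · exact Or.inr h.symm
  · exact Or.inl h.symm

end Pool.Agent.V8H94.GC
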