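import Mathlib
import Pool.Agent.V8H94.GC.Prime

/-!
# Actions on `2 l` points in which some pair of points cannot be separated
-/

set_option autoImplicit false

namespace Pool.Agent.V8H94.GC

open Finset Polynomial

variable {G X : Type*} [Group G] [Fintype G] [MulAction G X] [Fintype X] [DecidableEq X]

omit [Fintype G] in
/-- The sum over all points. -/
theorem sum_cycle {l : ℕ} {bar : X → X} (hbb : ∀ x, bar (bar x) = x) {t : G} {x₁ : X}
    (hinj : ∀ i < l, ∀ j < l, t ^ i • x₁ = t ^ j • x₁ → i = j)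
    (hdis : ∀ i < l, ∀ j < l, t ^ i • x₁ ≠ bar (t ^ j • x₁))
    (hsurj : ∀ x, ∃ i < l, x = t ^ i • x₁ ∨ x = bar (t ^ i • x₁)) (F : X → ℚ) :
    ∑ y, F y = ∑ k ∈ range l, (F (t ^ k • x₁) + F (bar (t ^ k • x₁))) := by
  classical
  have h1 : (univ : Finset X) = (range l).image (fun k => t ^ k • x₁) ∪
      (range l).image (fun k => bar (t ^ k • x₁)) := by
    ext x
    simp only [mem_univ, mem_union, mem_image, mem_range, true_iff]
    obtain ⟨i, hi, h | h⟩ := hsurj x
    · exact Or.inl ⟨i, hi, h.symm⟩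
    · exact Or.inr ⟨i, hi, h.symm⟩
  have h2 : Disjoint ((range l).image (fun k => t ^ k • x₁))
      ((range l).image (fun k => bar (t ^ k • x₁))) := by
    rw [disjoint_left]
    intro x hx hx'
    rw [mem_image] at hx hx'
    obtain ⟨i, hi, rfl⟩ := hx
    obtain ⟨j, hj, hij⟩ := hx'
    exact hdis i (mem_range.1 hi) j (mem_range.1 hj) hij.symm
  rw [h1, sum_union h2, sum_image, sum_image, sum_add_distrib]
  · intro i hi j hj hij
    have h3 := congrArg bar hij
    change bar (bar _) = bar (bar _) at h3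
    rw [hbb, hbb] at h3
    exact hinj i (mem_range.1 hi) j (mem_range.1 hj) h3
  · intro i hi j hj hij
    exact hinj i (mem_range.1 hi) j (mem_range.1 hj) hij

theorem sum_shift {l : ℕ} (g : ℕ → ℂ) (hg : ∀ k, g (l + k) = g k) (k : ℕ) :
    ∑ m ∈ range l, g (m + k) = ∑ m ∈ range l, g m := by
  induction k with
  | zero => rfl
  | succ k ih =>
    rw [← ih]
    have h1 := sum_range_succ (fun m => g (m + k)) l
    have h2 := sum_range_succ' (fun m => g (m + k)) l
    have h3 : ∑ m ∈ range l, g (m + (k + 1)) = ∑ m ∈ range l, g (m + 1 + k) :=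
      sum_congr rfl fun m _ => by congr 1; ring
    rw [h1, hg, zero_add] at h2
    rw [h3]
    exact (add_right_cancel h2).symm

/-- If some pair of points cannot be separated, there is a sign function on the points which is
invariant up to sign. -/
theorem exists_sign [MulAction.IsPretransitive G X] {l : ℕ} (hl : l.Prime) (hl2 : l ≠ 2)
    (hcard : Fintype.card X = 2 * l) (bar : X → X) (hbb : ∀ x, bar (bar x) = x)
    (hbG : ∀ (g : G) x, bar (g • x) = g • bar x) (hbne : ∀ x, bar x ≠ x) (c : G)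
    (hc : ∀ x : X, c • x = bar x) (x₀ y₀ : X) (hy1 : y₀ ≠ x₀) (hy2 : y₀ ≠ bar x₀)
    (hy3 : ¬ ∃ g : G, g • x₀ = x₀ ∧ g • y₀ = bar y₀) :
    ∃ w : X → ℚ, (∀ x, w x = 1 ∨ w x = -1) ∧ (∀ x, w (bar x) = - w x) ∧
      ∀ g : G, (∀ x, w (g • x) = w x) ∨ (∀ x, w (g • x) = - w x) := by
  classical
  obtain ⟨t, x₁, htl, hinj, hdis, hsurj⟩ := exists_cycle (G := G) hl hl2 hcard bar hbb hbG hbne
  have hl0 : 0 < l := hl.pos
  set B : X → X → ℚ := ker G bar x₀ y₀ with hB
  have hBG : ∀ (h : G) x y, B (h • x) (h • y) = B x y := ker_smul bar hbG x₀ y₀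
  have hBb : ∀ x y, B x (bar y) = - B x y := ker_bar bar hbb x₀ y₀
  have hBs : ∀ x, B x x = 0 := ker_self bar hbG x₀ y₀ hy1 hy2
  have hBp : 0 < B x₀ y₀ := ker_pos bar x₀ y₀ hy3
  let T : (X → ℚ) → X → ℚ := fun n x => ∑ y, B x y * n y
  -- equivariance
  have hTG : ∀ (n : X → ℚ) (g : G) (x : X), T (fun y => n (g • y)) x = T n (g • x) := by
    intro n g x
    refine Fintype.sum_equiv (MulAction.toPerm g) _ _ fun y => ?_
    change B x y * n (g • y) = B (g • x) (g • y) * n (g • y)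
    rw [hBG]
  have hTb : ∀ n : X → ℚ, (∀ x, n (bar x) = - n x) → ∀ x, T n (bar x) = - T n x := by
    intro n hn x
    rw [← hc, ← hTG]
    change ∑ y, B x y * n (c • y) = - ∑ y, B x y * n y
    rw [← sum_neg_distrib]
    refine sum_congr rfl fun y _ => ?_
    rw [hc, hn]
    ring
  -- values on the cycle
  have hmod : ∀ (j : ℕ) (x : X), t ^ (l + j) • x = t ^ j • x := by
    intro j x
    rw [pow_add, mul_smul, htl]
  have hTval : ∀ n : X → ℚ, (∀ x, n (bar x) = - n x) → ∀ m : ℕ,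
      T n (t ^ m • x₁) = 2 * ∑ k ∈ range l, B x₁ (t ^ k • x₁) * n (t ^ (m + k) • x₁) := by
    intro n hn m
    rw [← hTG]
    change ∑ y, B x₁ y * n (t ^ m • y) = _
    rw [sum_cycle hbb hinj hdis hsurj, mul_sum]
    refine sum_congr rfl fun k _ => ?_
    rw [hBb, ← hbG, hn, pow_add, mul_smul]
    ring
  set lam : ℚ := 2 * ∑ k ∈ range l, B x₁ (t ^ k • x₁) with hlam
  let ζ : ℂ := Complex.exp (2 * Real.pi * Complex.I / l)
  have hζ : IsPrimitiveRoot ζ l := Complex.isPrimitiveRoot_exp l hl0.ne'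
  have hη : IsPrimitiveRoot ζ⁻¹ l := hζ.inv
  have hζ0 : ζ ≠ 0 := hζ.ne_zero hl0.ne'
  -- eigenvectors are constant on the cycle
  have hconst : ∀ n : X → ℚ, (∀ x, n (bar x) = - n x) → (∀ x, T n x = lam * n x) →
      ∀ k < l, n (t ^ k • x₁) = n x₁ := by
    intro n hn hTn
    have h1 : ∑ m ∈ range l, ((T n (t ^ m • x₁) : ℚ) : ℂ) * ζ ^ m =
        (∑ k ∈ range l, ((2 * B x₁ (t ^ k • x₁) : ℚ) : ℂ) * ζ⁻¹ ^ k) *
          ∑ m ∈ range l, ((n (t ^ m • x₁) : ℚ) : ℂ) * ζ ^ m := by
      have h2 : ∀ k : ℕ, ∑ m ∈ range l, ((n (t ^ (m + k) • x₁) : ℚ) : ℂ) * ζ ^ (m + k) =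
          ∑ m ∈ range l, ((n (t ^ m • x₁) : ℚ) : ℂ) * ζ ^ m := by
        intro k
        refine sum_shift (fun m => ((n (t ^ m • x₁) : ℚ) : ℂ) * ζ ^ m) (fun k => ?_) k
        change ((n (t ^ (l + k) • x₁) : ℚ) : ℂ) * ζ ^ (l + k) = _
        rw [hmod, pow_add, hζ.pow_eq_one, one_mul]
      have h3 : ∀ m : ℕ, ((T n (t ^ m • x₁) : ℚ) : ℂ) * ζ ^ m =
          ∑ k ∈ range l, ((2 * B x₁ (t ^ k • x₁) : ℚ) : ℂ) * ζ⁻¹ ^ k *
            (((n (t ^ (m + k) • x₁) : ℚ) : ℂ) * ζ ^ (m + k)) := by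
        intro m
        rw [hTval n hn, mul_sum]
        push_cast
        rw [sum_mul]
        refine sum_congr rfl fun k _ => ?_
        have h4 : ζ⁻¹ ^ k * ζ ^ (m + k) = ζ ^ m := by
          rw [pow_add, inv_pow]
          field_simp
        rw [← h4]
        ring
      rw [sum_congr rfl fun m _ => h3 m, sum_comm, sum_mul]
      refine sum_congr rfl fun k _ => ?_
      rw [← mul_sum, h2]
    have h5 : ∑ m ∈ range l, ((T n (t ^ m • x₁) : ℚ) : ℂ) * ζ ^ m =
        lam * ∑ m ∈ range l, ((n (t ^ m • x₁) : ℚ) : ℂ) * ζ ^ m := by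
      rw [mul_sum]
      refine sum_congr rfl fun m _ => ?_
      rw [hTn]
      push_cast
      ring
    rw [h5] at h1
    -- the eigenvalue is different
    let b : ℕ → ℚ := fun k => 2 * B x₁ (t ^ k • x₁) - if k = 0 then lam else 0
    have h6 : ∑ k ∈ range l, ((b k : ℚ) : ℂ) * ζ⁻¹ ^ k =
        (∑ k ∈ range l, ((2 * B x₁ (t ^ k • x₁) : ℚ) : ℂ) * ζ⁻¹ ^ k) - lam := by
      have h7 : ∀ k : ℕ, ((b k : ℚ) : ℂ) * ζ⁻¹ ^ k =
          ((2 * B x₁ (t ^ k • x₁) : ℚ) : ℂ) * ζ⁻¹ ^ k - (if k = 0 then (lam : ℂ) else 0) := by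
        intro k
        simp only [b]
        by_cases hk : k = 0
        · subst hk
          simp
        · simp [hk]
      rw [sum_congr rfl fun k _ => h7 k, sum_sub_distrib, sum_ite_eq' (range l) 0,
        if_pos (mem_range.2 hl0)]
    have h8 : ∑ k ∈ range l, ((b k : ℚ) : ℂ) * ζ⁻¹ ^ k ≠ 0 := by
      intro h0
      have h9 := const_of_sum_zero hl hη b h0
      have h10 : b 0 = - lam := by
        simp only [b, pow_zero, one_smul, hBs]
        simp
      have h11 : ∑ k ∈ range l, b k = l * (- lam) := by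
        rw [sum_congr rfl fun k hk => (h9 k (mem_range.1 hk)).trans h10, sum_const, card_range,
          nsmul_eq_mul]
      have h12 : ∑ k ∈ range l, b k = 0 := by
        simp only [b]
        rw [sum_sub_distrib, sum_ite_eq' (range l) 0, if_pos (mem_range.2 hl0), ← mul_sum,
          ← hlam, sub_self]
      have h13 : lam = 0 := by
        rw [h12] at h11
        have h14 : (l : ℚ) ≠ 0 := Nat.cast_ne_zero.2 hl0.ne'
        have h15 := (mul_eq_zero.1 h11.symm).resolve_left h14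
        linarith
      have h14 : ∀ k < l, B x₁ (t ^ k • x₁) = 0 := by
        intro k hk
        have h15 := (h9 k hk).trans h10
        simp only [b, h13, neg_zero, ite_self, sub_zero] at h15
        linarith
      obtain ⟨g, hg⟩ := MulAction.exists_smul_eq G x₀ x₁
      have h16 : B x₁ (g • y₀) = B x₀ y₀ := by rw [← hg, hBG]
      obtain ⟨i, hi, h | h⟩ := hsurj (g • y₀)
      · rw [h, h14 i hi] at h16
        linarith
      · rw [h, hBb, h14 i hi] at h16
        linarith
    have h17 : (∑ k ∈ range l, ((b k : ℚ) : ℂ) * ζ⁻¹ ^ k) *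
        ∑ m ∈ range l, ((n (t ^ m • x₁) : ℚ) : ℂ) * ζ ^ m = 0 := by
      rw [h6, sub_mul, ← h1, sub_self]
    have h18 := (mul_eq_zero.1 h17).resolve_left h8
    have h19 := const_of_sum_zero hl hζ (fun k => n (t ^ k • x₁)) h18
    intro k hk
    have h20 := h19 k hk
    simpa using h20
  -- the sign function
  let w : X → ℚ := fun x => if ∃ k < l, x = t ^ k • x₁ then 1 else -1
  have hw1 : ∀ k < l, w (t ^ k • x₁) = 1 := fun k hk => if_pos ⟨k, hk, rfl⟩
  have hw2 : ∀ k < l, w (bar (t ^ k • x₁)) = -1 := fun k hk => if_neg (by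
    rintro ⟨j, hj, h⟩
    exact hdis j hj k hk h.symm)
  have hwb : ∀ x, w (bar x) = - w x := by
    intro x
    obtain ⟨i, hi, rfl | rfl⟩ := hsurj x
    · rw [hw1 i hi, hw2 i hi]
    · rw [hbb, hw1 i hi, hw2 i hi]
      norm_num
  have hw3 : ∀ j : ℕ, w (t ^ j • x₁) = 1 := by
    intro j
    induction j using Nat.strong_induction_on with
    | _ j ih =>
      by_cases hj : j < l
      · exact hw1 j hj
      · obtain ⟨d, rfl⟩ := Nat.exists_eq_add_of_le (not_lt.1 hj)
        rw [hmod]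
        exact ih d (by omega)
  have hTw : ∀ x, T w x = lam * w x := by
    have h1 : ∀ i, T w (t ^ i • x₁) = lam * w (t ^ i • x₁) := by
      intro i
      rw [hTval w hwb, hw3, mul_one, hlam]
      congr 1
      refine sum_congr rfl fun k _ => ?_
      rw [hw3, mul_one]
    intro x
    obtain ⟨i, hi, rfl | rfl⟩ := hsurj x
    · exact h1 i
    · rw [hTb w hwb, h1, hwb]
      ring
  refine ⟨w, fun x => ?_, hwb, fun g => ?_⟩
  · by_cases h : ∃ k < l, x = t ^ k • x₁
    · exact Or.inl (if_pos h)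
    · exact Or.inr (if_neg h)
  · have h1 : ∀ k < l, w (g • t ^ k • x₁) = w (g • x₁) :=
      hconst (fun x => w (g • x)) (fun x => by
        change w (g • bar x) = - w (g • x)
        rw [← hbG, hwb]) (fun x => (hTG w g x).trans (hTw (g • x)))
    have h2 : ∀ ε : ℚ, w (g • x₁) = ε → ∀ x, w (g • x) = ε * w x := by
      intro ε hε x
      obtain ⟨i, hi, rfl | rfl⟩ := hsurj x
      · rw [h1 i hi, hε, hw1 i hi, mul_one]
      · rw [← hbG, hwb, hwb, h1 i hi, hε, hw1 i hi]
        ring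
    by_cases h : ∃ k < l, g • x₁ = t ^ k • x₁
    · left
      intro x
      rw [h2 1 (if_pos h) x, one_mul]
    · right
      intro x
      rw [h2 (-1) (if_neg h) x]
      ring

end Pool.Agent.V8H94.GC
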