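import Mathlib
import Pool.Agent.H977R3.WN.Crit
import Pool.Agent.H204R3.CM.Nondeg
import Pool.Agent.V8H94.GC.Defs
import Pool.Agent.V8H94.GC.Angle
import Pool.Agent.V8H94.GC.Sign

/-!
# CM fields of degree `2 l`, `l` an odd prime, without quadratic subfields are generic
-/

set_option autoImplicit false

namespace Pool.Agent.V8H94.GC

open NumberField Module IntermediateField Pool.Agent.H204R3.CM Pool.Agent.H977R3.CM

/-- An automorphism of the Galois closure which fixes `φ` and conjugates `ψ` gives one of the complex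
numbers. -/
theorem exists_complex_aut {K : Type} [Field K] [NumberField K] [IsCMField K] {L : Type} [Field L]
    [NumberField L] (j : L →+* ℂ) (φ ψ : K →+* L) (g : L ≃ₐ[ℚ] L) (h1 : g • φ = φ)
    (h2 : g • ψ = cbar ψ) : ∃ σ : ℂ ≃+* ℂ, (∀ x, σ (j.comp φ x) = j.comp φ x) ∧
      ∀ y, σ (j.comp ψ y) = (starRingEnd ℂ) (j.comp ψ y) := by
  obtain ⟨σ, hσ⟩ := exists_aut j (g : L ≃+* L)
  refine ⟨σ, fun x => ?_, fun y => ?_⟩
  · have h3 := hσ (φ x)
    have h4 : (g : L ≃+* L) (φ x) = φ x := RingHom.congr_fun h1 x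
    rw [h4] at h3
    exact h3
  · have h3 := hσ (ψ y)
    have h4 : (g : L ≃+* L) (ψ y) = cbar ψ y := RingHom.congr_fun h2 y
    rw [h4] at h3
    have h5 := RingHom.congr_fun (comp_cbar j ψ) y
    rw [ComplexEmbedding.conjugate_coe_eq] at h5
    exact h3.trans h5

/-- A CM field of degree `2 l`, `l` an odd prime number, which contains no quadratic field is
generic. -/
theorem isGeneric_of_prime {K : Type} [Field K] [NumberField K] [IsCMField K] {l : ℕ}
    (hl : l.Prime) (hl2 : l ≠ 2) (hdeg : finrank ℚ K = 2 * l)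
    (hno : ∀ F : IntermediateField ℚ K, finrank ℚ F ≠ 2) : IsGeneric K := by
  classical
  obtain ⟨L, _, _, j, hj⟩ := exists_galois (fun _ : Unit => K)
  intro φ₁ ψ₁ h1 h2
  obtain ⟨φ, rfl⟩ := hj () φ₁
  obtain ⟨ψ, rfl⟩ := hj () ψ₁
  by_contra hcon
  obtain ⟨c, hc⟩ := exists_gal j (starRingAut : ℂ ≃+* ℂ)
  have hcφ : ∀ φ : K →+* L, c • φ = cbar φ := by
    intro φ
    refine RingHom.ext fun x => j.injective ?_
    have h1 := hc (φ x)
    have h2 := RingHom.congr_fun (comp_cbar j φ) x
    rw [ComplexEmbedding.conjugate_coe_eq] at h2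
    exact h1.symm.trans h2.symm
  obtain ⟨w, hw1, hwb, hwG⟩ := exists_sign (G := L ≃ₐ[ℚ] L) (X := K →+* L) hl hl2
    ((card_emb j (hj ())).trans hdeg) cbar cbar_cbar (fun g φ => rfl) (fun φ => cbar_ne φ) c hcφ
    φ ψ (fun h => h1 (by rw [h])) (fun h => h2 (by rw [h, comp_cbar]))
    (fun ⟨g, hg1, hg2⟩ => hcon (exists_complex_aut j φ ψ g hg1 hg2))
  have hw0 : ∀ x, w x ≠ 0 := by
    intro x h
    rcases hw1 x with h3 | h3 <;> rw [h] at h3 <;> norm_num at h3
  -- the subgroup of index two
  let H : Subgroup (L ≃ₐ[ℚ] L) :=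
    { carrier := {g | ∀ x : K →+* L, w (g • x) = w x}
      mul_mem' := by
        intro a b ha hb x
        rw [mul_smul, ha, hb]
      one_mem' := fun x => by rw [one_smul]
      inv_mem' := by
        intro a ha x
        have h3 := ha (a⁻¹ • x)
        rw [smul_inv_smul] at h3
        exact h3.symm }
  have hmem : ∀ g, g ∈ H ↔ ∀ x : K →+* L, w (g • x) = w x := fun g => Iff.rfl
  have hnot : ∀ g, g ∉ H → ∀ x : K →+* L, w (g • x) = - w x := fun g hg =>
    (hwG g).resolve_left hg
  have hidx : H.index = 2 := by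
    rw [Subgroup.index_eq_two_iff]
    refine ⟨c, fun b => ?_⟩
    have h3 : ∀ x : K →+* L, w ((b * c) • x) = - w (b • x) := by
      intro x
      rw [mul_smul, hcφ]
      exact hwb (b • x)
    by_cases hb : b ∈ H
    · refine Or.inr ⟨hb, fun hbc => ?_⟩
      have h4 := hbc φ
      rw [h3, hb φ] at h4
      have h5 := hw0 φ
      apply h5
      linarith
    · refine Or.inl ⟨fun x => ?_, hb⟩
      rw [h3, hnot b hb, neg_neg]
  -- the quadratic field
  let Φ : K →ₐ[ℚ] L := RingHom.equivRatAlgHom K L φ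
  have hΦ : ∀ x, Φ x = φ x := fun x => rfl
  let F₁ : IntermediateField ℚ L := fixedField H
  have hF1 : finrank ℚ F₁ = 2 := by
    rw [IntermediateField.finrank_eq_fixingSubgroup_index, IntermediateField.fixingSubgroup_fixedField,
      hidx]
  have hle : F₁ ≤ Φ.fieldRange := by
    have h3 : fixedField (Φ.fieldRange.fixingSubgroup) = Φ.fieldRange :=
      IsGalois.fixedField_fixingSubgroup _
    rw [← h3]
    intro x hx
    rw [IntermediateField.mem_fixedField_iff] at hx ⊢
    intro g hg
    apply hx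
    have h4 : g • φ = φ := by
      refine RingHom.ext fun y => ?_
      exact (IntermediateField.mem_fixingSubgroup_iff _ g).1 hg (Φ y) ⟨y, rfl⟩
    by_contra hgH
    have h5 := hnot g hgH φ
    rw [h4] at h5
    apply hw0 φ
    linarith
  apply hno (F₁.comap Φ)
  have h3 : (F₁.comap Φ).map Φ = F₁ := IntermediateField.map_comap_eq_self hle
  have h4 := ((F₁.comap Φ).equivMap Φ).toLinearEquiv.finrank_eq
  rw [h4, h3, hF1]

/-- Imaginary quadratic fields are generic. -/
theorem isGeneric_of_two {K : Type} [Field K] [NumberField K] [IsCMField K]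
    (hdeg : finrank ℚ K = 2) : IsGeneric K := by
  classical
  intro φ ψ h1 h2
  exfalso
  have h3 : ComplexEmbedding.conjugate φ ≠ φ := by
    rw [conj_eq_cbar']
    exact cbar_ne φ
  have h4 : ({φ, ComplexEmbedding.conjugate φ, ψ} : Finset (K →+* ℂ)).card = 3 := by
    rw [Finset.card_eq_three]
    exact ⟨φ, _, ψ, h3.symm, h1.symm, h2.symm, rfl⟩
  have h5 := Finset.card_le_univ ({φ, ComplexEmbedding.conjugate φ, ψ} : Finset (K →+* ℂ))
  rw [h4, Embeddings.card, hdeg] at h5
  omega

/-- CM fields of degree four which are not normal over the rational numbers are generic. -/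
theorem isGeneric_of_four {K : Type} [Field K] [NumberField K] [IsCMField K]
    (hdeg : finrank ℚ K = 4) (hno : ¬ IsGalois ℚ K) : IsGeneric K := by
  classical
  obtain ⟨L, _, _, j, hj⟩ := exists_galois (fun _ : Unit => K)
  intro φ₁ ψ₁ h1 h2
  obtain ⟨φ, rfl⟩ := hj () φ₁
  obtain ⟨ψ, rfl⟩ := hj () ψ₁
  by_contra hcon
  have hne1 : ψ ≠ φ := fun h => h1 (by rw [h])
  have hne2 : ψ ≠ cbar φ := fun h => h2 (by rw [h, comp_cbar])
  have hall : ∀ χ : K →+* L, χ = φ ∨ χ = cbar φ ∨ χ = ψ ∨ χ = cbar ψ := by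
    have h3 : ({φ, cbar φ, ψ, cbar ψ} : Finset (K →+* L)).card = 4 := by
      rw [Finset.card_eq_four]
      refine ⟨φ, cbar φ, ψ, cbar ψ, (cbar_ne φ).symm, hne1.symm, ?_, hne2.symm, ?_,
        (cbar_ne ψ).symm, rfl⟩
      · intro h
        apply hne2
        rw [h, cbar_cbar]
      · intro h
        apply hne1
        rw [← cbar_cbar ψ, ← h, cbar_cbar]
    have h4 : ({φ, cbar φ, ψ, cbar ψ} : Finset (K →+* L)) = Finset.univ := by
      rw [← Finset.card_eq_iff_eq_univ, h3, card_emb j (hj ()), hdeg]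
    intro χ
    have h5 : χ ∈ ({φ, cbar φ, ψ, cbar ψ} : Finset (K →+* L)) := by
      rw [h4]
      exact Finset.mem_univ χ
    simpa using h5
  -- the stabilizer of `φ` fixes everything
  have hfix : ∀ g : L ≃ₐ[ℚ] L, g • φ = φ → ∀ χ : K →+* L, g • χ = χ := by
    intro g hg
    have hgc : ∀ χ : K →+* L, g • cbar χ = cbar (g • χ) := fun χ => rfl
    have h3 : g • ψ = ψ := by
      rcases hall (g • ψ) with h | h | h | h
      · rw [← hg] at h
        exact absurd ((MulAction.injective g) h) hne1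
      · rw [← hg, ← hgc] at h
        exact absurd ((MulAction.injective g) h) hne2
      · exact h
      · exact absurd (exists_complex_aut j φ ψ g hg h) hcon
    intro χ
    rcases hall χ with h | h | h | h
    · rw [h, hg]
    · rw [h, hgc, hg]
    · rw [h, h3]
    · rw [h, hgc, h3]
  let Φ : K →ₐ[ℚ] L := RingHom.equivRatAlgHom K L φ
  have hnormal : @Normal ℚ Φ.fieldRange _ _ (IntermediateField.algebra' Φ.fieldRange) := by
    refine IntermediateField.normal_iff_forall_fieldRange_le.2 ?_
    rintro σ x ⟨y, hy⟩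
    obtain ⟨z, hz⟩ := y.2
    have h3 : fixedField (Φ.fieldRange.fixingSubgroup) = Φ.fieldRange :=
      IsGalois.fixedField_fixingSubgroup _
    suffices h7 : x ∈ fixedField (Φ.fieldRange.fixingSubgroup) from h3.le h7
    rw [IntermediateField.mem_fixedField_iff]
    intro g hg
    have h4 : g • φ = φ := by
      refine RingHom.ext fun y => ?_
      exact (IntermediateField.mem_fixingSubgroup_iff _ g).1 hg (Φ y) ⟨y, rfl⟩
    let χ : K →+* L := ((σ.comp (Φ.rangeRestrict) : K →ₐ[ℚ] L) : K →+* L)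
    have h5 := RingHom.congr_fun (hfix g h4 χ) z
    have h6 : χ z = x := by
      rw [← hy]
      change σ (Φ.rangeRestrict z) = σ y
      congr 1
      exact Subtype.ext hz
    change g (χ z) = χ z at h5
    rw [h6] at h5
    exact h5
  apply hno
  have hn : Normal ℚ K := Normal.of_algEquiv (h := hnormal) (AlgEquiv.ofInjectiveField Φ).symm
  exact ⟨⟩

/-- The examples of generic CM fields. -/
theorem isGeneric_of_example {K : Type} [Field K] [NumberField K] [IsCMField K]
    (h : IsExample K) : IsGeneric K := by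
  rcases h with h | ⟨h, hn⟩ | ⟨l, hl, hl2, h, hn⟩
  · exact isGeneric_of_two h
  · exact isGeneric_of_four h hn
  · exact isGeneric_of_prime hl hl2 h hn

end Pool.Agent.V8H94.GC
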