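import Mathlib
import Pool.Agent.TH170.GS.Defs
import Pool.Agent.W495.FM.HomDefs
import Pool.Agent.H977R3.CM.Defs
import Pool.Agent.V8H94.GC.Defs

/-!
# Abelian varieties over finite fields with independent slopes: definitions
-/

set_option autoImplicit false

namespace Pool.Agent.V8H94.GC

open NumberField Pool.Agent.W495.TA Pool.Agent.W495.FM Pool.Agent.H977R3.CM

open Pool.Agent.TH170.GS (IsSupersingular)

/-- The abelian variety `Y` over the field with `p ^ a` elements has independent slopes: there are
finitely many generic CM fields `K i`, pairwise independent, and for each `i` finitely many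
functions `u ⟨i, k⟩`, `k : J i`, with real values on the embeddings of `K i` into the algebraic closure
of the field of `p`-adic numbers, which are odd and linearly independent over `ℚ`, such that each
factor of `Y` is supersingular or some power of its Frobenius endomorphism, the power with exponent
`s`, say, is a number `x` in one of the fields `K i` (embedded in the CM field of the factor) whose
slope at the embedding `τ` of `K i` is `s (a + u ⟨i, k⟩ τ) / 2` for some `k : J i` (for the valuation
with the value one at `p`). -/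
def IndependentSlopes {p : ℕ} [Fact p.Prime] {ν : PadicAlgCl p ≃+* ℂ} (Y : RedAV p ν) : Prop :=
  ∃ (I : Type) (_ : Fintype I) (K : I → Type) (_ : ∀ i, Field (K i)) (_ : ∀ i, NumberField (K i))
    (_ : ∀ i, IsCMField (K i)) (J : I → Type) (_ : ∀ i, Fintype (J i))
    (u : ∀ z : Σ i, J i, (K z.1 →+* PadicAlgCl p) → ℝ),
    PairwiseIndep K ∧ (∀ i, IsGeneric (K i)) ∧
    (∀ z τ, u z (τ.comp (IsCMField.complexConj (K z.1) : K z.1 →+* K z.1)) = - u z τ) ∧
    (∀ i, LinearIndependent (M := (K i →+* PadicAlgCl p) → ℝ) ℚ fun k : J i => u ⟨i, k⟩) ∧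
    ∀ m : Y.X.I, IsSupersingular p Y.a (Y.π m) ∨
      ∃ (z : Σ i, J i) (θ : K z.1 →+* (Y.X.factor m).E) (x : K z.1) (s : ℕ), 0 < s ∧
        θ x = Y.π m ^ s ∧
        ∀ τ : K z.1 →+* PadicAlgCl p, 2 * (- Real.logb p ‖τ x‖) - s * Y.a = s * u z τ

/-- The groups of motivic and of `ℓ`-adic homology of `X` are those of an abelian variety `Y` over a
finite field of characteristic `p` with independent slopes. -/
def IsAbelianIndependent {p : ℕ} [Fact p.Prime] (ν : PadicAlgCl p ≃+* ℂ) {Ω V : Type} [Field Ω]
    [CharZero Ω] (T : Homology Ω V) (X : V) : Prop :=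
  ∃ (Y : RedAV p ν) (C : Cycles Ω Y) (D : Motivic C) (g : ℕ), IndependentSlopes Y ∧ IsChow C ∧
    IsMotivic D ∧ IsAbelian T X D g

end Pool.Agent.V8H94.GC
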