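import Mathlib
import Pool.Agent.V8H94.GC.Angle
import Pool.Agent.V8H94.GC.WEDefs
import Pool.Agent.TH170.GS.Rel
import Pool.Agent.TH117.GN.Main

/-!
# Relations between the Frobenius eigenvalues of abelian varieties with independent slopes
-/

set_option autoImplicit false
set_option linter.unusedSectionVars false
set_option linter.unusedVariables false

namespace Pool.Agent.V8H94.GC

open NumberField Finset Module Pool.Agent.H204R3.CM Pool.Agent.H977R3.CM Pool.Agent.H977R3.WN
  Pool.Agent.TH170.CM Pool.Agent.TH170.MF Pool.Agent.W495.TA Pool.Agent.TH117 Pool.Agent.TH170.FW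
  Pool.Agent.TH170.GS Pool.Agent.W495.FM Pool.Agent.TH117.GN

section rel

variable {p : ℕ} [Fact p.Prime] {ν : PadicAlgCl p ≃+* ℂ} {I : Type} [Fintype I] {K : I → Type}
  [∀ i, Field (K i)] [∀ i, NumberField (K i)] [∀ i, IsCMField (K i)]

/-- Transport of a complex embedding to the algebraic closure of `ℚ_p`. -/
noncomputable def tr (ν : PadicAlgCl p ≃+* ℂ) {E : Type} [Field E] (φ : E →+* ℂ) :
    E →+* PadicAlgCl p := (ν.symm : ℂ →+* PadicAlgCl p).comp φ

theorem tr_conj {E : Type} [Field E] [NumberField E] [IsCMField E] (φ : E →+* ℂ) :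
    tr ν (ComplexEmbedding.conjugate φ) = cbar (tr ν φ) := by
  rw [conj_eq_cbar']
  rfl

/-- The antisymmetric integral relations are trivial. -/
theorem trivial_rel (hind : PairwiseIndep K) (hgen : ∀ i, IsGeneric (K i)) {J : I → Type}
    [∀ i, Fintype (J i)] {u : ∀ z : Σ i, J i, (K z.1 →+* PadicAlgCl p) → ℝ}
    (hanti : ∀ z τ, u z (cbar τ) = - u z τ)
    (hlin : ∀ i, LinearIndependent (M := (K i →+* PadicAlgCl p) → ℝ) ℚ
      fun k : J i => u ⟨i, k⟩)
    (c : ∀ z : Σ i, J i, (K z.1 →+* ℂ) → ℤ)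
    (hc : ∀ z φ, c z (ComplexEmbedding.conjugate φ) = - c z φ)
    (hrel : ∀ σ : ℂ ≃+* ℂ, ∑ z, ∑ φ : K z.1 →+* ℂ, (c z φ : ℝ) *
      u z (tr ν ((σ : ℂ →+* ℂ).comp φ)) = 0) (z : Σ i, J i)
    (φ : K z.1 →+* ℂ) : c z φ = 0 := by
  classical
  obtain ⟨L, _, _, j, hj⟩ := exists_galois K
  let jp : L →+* PadicAlgCl p := tr ν j
  have hsplit := split_relations (J := J) hind hgen j hj (fun z φ => (c z (j.comp φ) : ℝ))
    (fun z φ => u z (jp.comp φ)) (fun z φ => by
      have h2 : j.comp (cbar φ) = ComplexEmbedding.conjugate (j.comp φ) := by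
        rw [conj_eq_cbar']
        rfl
      rw [h2, hc]
      push_cast
      rfl) (fun z φ => hanti z (jp.comp φ)) (fun g => by
      obtain ⟨σ, hσ⟩ := exists_aut j (g : L ≃+* L)
      rw [← hrel σ]
      refine sum_congr rfl fun z _ => ?_
      refine Fintype.sum_equiv (toC j (hj z.1)) _ _ fun ψ => ?_
      have h3 : (σ : ℂ →+* ℂ).comp (toC j (hj z.1) ψ) = j.comp (g • ψ) := by
        ext y
        exact hσ (ψ y)
      rw [h3]
      rfl)
  obtain ⟨i, k⟩ := z
  obtain ⟨φ, rfl⟩ := hj i φ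
  have h2 := Fintype.linearIndependent_iff.1 (hlin i)
    (fun k => ((c ⟨i, k⟩ (j.comp φ) : ℤ) : ℚ)) (by
      funext τ
      obtain ⟨χ, rfl⟩ := factor j (hj i) jp τ
      rw [Finset.sum_apply, Pi.zero_apply, ← hsplit i φ χ]
      refine Finset.sum_congr rfl fun k _ => ?_
      rw [Pi.smul_apply, Rat.smul_def]
      push_cast
      rfl) k
  exact_mod_cast h2

end rel

section main

variable {p : ℕ} [Fact p.Prime] {ν : PadicAlgCl p ≃+* ℂ}

/-- All relations between the Frobenius eigenvalues of an abelian variety with independent slopes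
are elementary. -/
theorem elementary_of_indep {Y : RedAV p ν} (hY : IndependentSlopes Y) :
    BL.HasElementaryRelations Y := by
  classical
  intro e he
  obtain ⟨I, _, K, _, _, _, J, _, u, hind, hgen, hanti', hlin, hY⟩ := hY
  have hanti : ∀ z τ, u z (cbar τ) = - u z τ := hanti'
  let S : Y.X.I → Prop := fun k =>
    ∃ s : ℕ, 0 < s ∧ Y.π k ^ (2 * s) = ((p : (Y.X.factor k).E) ^ Y.a) ^ s
  have hY' : ∀ k, ¬ S k → ∃ (z : Σ i, J i) (θ : K z.1 →+* (Y.X.factor k).E) (x : K z.1) (s : ℕ),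
      0 < s ∧ θ x = Y.π k ^ s ∧ ∀ τ : K z.1 →+* PadicAlgCl p,
        2 * (- Real.logb p ‖τ x‖) - s * Y.a = s * u z τ := fun k hk =>
    (hY k).resolve_left hk
  choose t θ x s hs hθ hsl using hY'
  let ε : ∀ z : Σ i, J i, (K z.1 →+* ℂ) → ℝ := fun z φ => u z (tr ν φ)
  have hεc : ∀ z φ, ε z (ComplexEmbedding.conjugate φ) = - ε z φ := by
    intro z φ
    simp only [ε]
    rw [tr_conj, hanti]
  let X : Type := Σ z : (Σ i, J i), (K z.1 →+* ℂ)
  let inv : X → X := fun z => ⟨z.1, ComplexEmbedding.conjugate z.2⟩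
  have hinv : ∀ z, inv (inv z) = z := by
    rintro ⟨i, φ⟩
    simp only [inv, conj_conj]
  let F : BL.Emb Y → Option X := fun w =>
    if h : S w.1 then none else some ⟨t w.1 h, w.2.comp (θ w.1 h)⟩
  have hF1 : ∀ w, S w.1 → F w = none := fun w h => dif_pos h
  have hF2 : ∀ w (h : ¬ S w.1), F w = some ⟨t w.1 h, w.2.comp (θ w.1 h)⟩ := fun w h => dif_neg h
  have hFc : ∀ w z, F w = some z → F (conjE w) = some (inv z) := by
    intro w z hz
    by_cases h : S w.1
    · rw [hF1 w h] at hz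
      exact absurd hz (by simp)
    · rw [hF2 w h] at hz
      rw [← Option.some.inj hz, hF2 (conjE w) h]
      rfl
  -- the slopes
  have hdev0 : ∀ w, F w = none → ∀ σ, dev Y σ w = 0 := by
    intro w hw σ
    have h : S w.1 := by
      by_contra h
      rw [hF2 w h] at hw
      exact absurd hw (by simp)
    have h1 := sum_dev_of_isRel (isRel_single w h) σ
    rw [sum_eq_single w] at h1
    · rwa [Pi.single_eq_same, Nat.cast_one, one_mul] at h1
    · intro v _ hv
      rw [Pi.single_eq_of_ne hv, Nat.cast_zero, zero_mul]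
    · intro h
      exact absurd (mem_univ _) h
  have hdev : ∀ w z, F w = some z → ∀ σ : ℂ ≃+* ℂ,
      dev Y σ w = ε z.1 ((σ : ℂ →+* ℂ).comp z.2) := by
    intro w z hz σ
    by_cases h : S w.1
    · rw [hF1 w h] at hz
      exact absurd hz (by simp)
    · rw [hF2 w h] at hz
      rw [← Option.some.inj hz]
      have h1 := hsl w.1 h (tr ν ((σ : ℂ →+* ℂ).comp (w.2.comp (θ w.1 h))))
      have h2 : (tr ν ((σ : ℂ →+* ℂ).comp (w.2.comp (θ w.1 h)))) (x w.1 h) =
          ν.symm (σ (BL.eig Y w)) ^ s w.1 h := by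
        change ν.symm (σ (w.2 (θ w.1 h (x w.1 h)))) = _
        rw [hθ, map_pow, map_pow, map_pow]
        rfl
      rw [h2, norm_pow, Real.logb_pow] at h1
      have hs0 : (s w.1 h : ℝ) ≠ 0 := Nat.cast_ne_zero.2 (hs w.1 h).ne'
      apply mul_left_cancel₀ hs0
      have h3 : (s w.1 h : ℝ) * dev Y σ w =
          2 * (-(s w.1 h * Real.logb p ‖ν.symm (σ (BL.eig Y w))‖)) - s w.1 h * Y.a := by
        unfold dev
        ring
      rw [h3, h1]
  -- the antisymmetric exponents
  let a : ∀ z : Σ i, J i, (K z.1 →+* ℂ) → ℤ := fun z φ =>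
    ∑ w : BL.Emb Y, (e w : ℤ) * ((if F w = some ⟨z, φ⟩ then 1 else 0) -
      (if F w = some ⟨z, ComplexEmbedding.conjugate φ⟩ then 1 else 0))
  have hc : ∀ z φ, a z (ComplexEmbedding.conjugate φ) = - a z φ := by
    intro z φ
    simp only [a]
    rw [conj_conj, ← sum_neg_distrib]
    exact sum_congr rfl fun w _ => by ring
  have hrel' : ∀ σ : ℂ ≃+* ℂ, ∑ z, ∑ φ : K z.1 →+* ℂ, (a z φ : ℝ) *
      u z (tr ν ((σ : ℂ →+* ℂ).comp φ)) = 0 := by
    intro σ
    have h1 : ∑ z, ∑ φ : K z.1 →+* ℂ, (a z φ : ℝ) *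
        u z (tr ν ((σ : ℂ →+* ℂ).comp φ)) =
        ∑ z : X, ∑ w : BL.Emb Y, (e w : ℝ) * (((if F w = some z then 1 else 0) -
          (if F w = some (inv z) then 1 else 0)) *
            (ε z.1 ((σ : ℂ →+* ℂ).comp z.2))) := by
      rw [← Fintype.sum_sigma (fun z : X => (a z.1 z.2 : ℝ) *
        u z.1 (tr ν ((σ : ℂ →+* ℂ).comp z.2)))]
      refine sum_congr rfl fun z _ => ?_
      simp only [a]
      push_cast
      rw [sum_mul]
      refine sum_congr rfl fun w _ => ?_
      simp only [ε, inv]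
      ring
    rw [h1, sum_comm]
    have h2 : ∀ w : BL.Emb Y, ∑ z : X, (e w : ℝ) * (((if F w = some z then 1 else 0) -
          (if F w = some (inv z) then 1 else 0)) *
            (ε z.1 ((σ : ℂ →+* ℂ).comp z.2))) = 2 * ((e w : ℝ) * dev Y σ w) := by
      intro w
      rw [← mul_sum]
      rcases hw : F w with _ | z
      · rw [hdev0 w hw]
        simp
      · have h3 : ∀ z' : X, (((if some z = some z' then (1 : ℝ) else 0) -
            (if some z = some (inv z') then 1 else 0)) *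
              (ε z'.1 ((σ : ℂ →+* ℂ).comp z'.2))) =
            (if z = z' then ε z'.1 ((σ : ℂ →+* ℂ).comp z'.2) else 0) -
              (if inv z = z' then ε z'.1 ((σ : ℂ →+* ℂ).comp z'.2) else 0) := by
          intro z'
          have h4 : (z = inv z') ↔ (inv z = z') :=
            ⟨fun h => by rw [h, hinv], fun h => by rw [← h, hinv]⟩
          simp only [Option.some_inj, h4]
          split_ifs <;> ring
        rw [sum_congr rfl fun z' _ => h3 z', sum_sub_distrib, sum_ite_eq univ z,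
          sum_ite_eq univ (inv z), if_pos (mem_univ _), if_pos (mem_univ _), hdev w z hw σ]
        have h5 : ε (inv z).1 ((σ : ℂ →+* ℂ).comp (inv z).2) =
            - ε z.1 ((σ : ℂ →+* ℂ).comp z.2) := by
          change ε z.1 ((σ : ℂ →+* ℂ).comp (ComplexEmbedding.conjugate z.2)) = _
          rw [Pool.Agent.TH170.QC.comp_conj, hεc]
        rw [h5]
        ring
    rw [sum_congr rfl fun w _ => h2 w, ← mul_sum, sum_dev_of_isRel he, mul_zero]
  have h0 : ∀ z φ, a z φ = 0 := fun z φ =>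
    trivial_rel (ν := ν) hind hgen hanti hlin a hc hrel' z φ
  refine mem_of_symm _ F inv hinv ?_ ?_ ?_ ?_ (fun w => (e w : ℤ)) ?_
  · rintro ⟨i, φ⟩ h
    exact conj_ne φ (eq_of_heq (Sigma.mk.inj h).2)
  · intro w hw
    apply single_mem
    by_contra h
    have h1 := hF2 w h
    rw [hw] at h1
    exact absurd h1 (by simp)
  · intro w w' z hz hz'
    refine pair_mem w w' fun σ => ?_
    rw [hdev w z hz, hdev w' (inv z) hz']
    have h5 : ε (inv z).1 ((σ : ℂ →+* ℂ).comp (inv z).2) =
        - ε z.1 ((σ : ℂ →+* ℂ).comp z.2) := by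
      change ε z.1 ((σ : ℂ →+* ℂ).comp (ComplexEmbedding.conjugate z.2)) = _
      rw [Pool.Agent.TH170.QC.comp_conj, hεc]
    rw [h5]
    ring
  · intro w z hz
    exact ⟨conjE w, hFc w z hz⟩
  · rintro ⟨i, φ⟩
    have h1 := h0 i φ
    simp only [a, mul_sub, mul_ite, mul_one, mul_zero, sum_sub_distrib] at h1
    exact sub_eq_zero.1 h1

/-- The conjecture of Tate and Beilinson for everything generated by abelian varieties with
independent slopes. -/
theorem tb_indep {Ω V : Type} [Field Ω] [IsAlgClosed Ω] [CharZero Ω] {T : Homology Ω V}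
    (hT : IsHomology T) {X : V} (hX : Generated T (IsAbelianIndependent ν T) X) : TB T X := by
  refine tb_generated hT (fun X hX => ?_) hX
  obtain ⟨Y, C, D, g, h1, hC, hD, hX⟩ := hX
  exact tb_abelian hT hC (tateHolds_elem (elementary_of_indep h1)
    (fun k => Or.inr ⟨k, RingHom.id _, 1, 1, one_pos, one_pos, rfl, rfl⟩) hC) hD hX

end main

end Pool.Agent.V8H94.GC
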