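import Mathlib
import Pool.Agent.V8H94.GC.Converse
import Pool.Agent.V8H94.GC.PrimeDegree
import Pool.Agent.Y1.CT.Light
import Pool.Agent.Y1.CT.UnrelRel

/-!
# Rational and numerical equivalence on products with several nonisogenous abelian varieties with
multiplication by the same generic CM field

Let `K i` (`i` in a finite set) be CM fields with the following two properties.

* They are pairwise independent: for `i ≠ i'` and all complex embeddings `φ` of `K i` and `ψ` of
  `K i'` some automorphism of `ℂ` is the identity on `φ (K i)` and the complex conjugation on
  `ψ (K i')` (no condition if there is only one field).
* Each `K = K i` is *generic* (`IsGeneric`): for any two complex embeddings `φ`, `ψ` of `K` which are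
  neither equal nor complex conjugate some automorphism of `ℂ` is the identity on `φ (K)` and the
  complex conjugation on `ψ (K)`. In other words, the functions on the set of the embeddings of `K`
  which change their sign under complex conjugation form an absolutely irreducible representation
  of the group of automorphisms of `ℂ`. This is so for instance if the Galois group is as large as
  possible (it contains all changes of signs). The theorem contains a proof that all CM fields of
  the following kinds (`IsExample`) are generic: imaginary quadratic fields, fields of degree four
  which are not normal over `ℚ`, fields of degree `2 l`, `l` an odd prime number, which contain no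
  quadratic field.

For each `i` let `π ⟨i, k⟩` (`k` in a finite set `J i`) be **any number of Weil numbers in the same
field** `K i` (`IsWeil`), for `q = p ^ a`. They belong to abelian varieties over the field with `q`
elements, which need not be isogenous for different `k`. The slope vector (`slopeVec`) of `π` is the
function `τ ↦ 2 v (τ π) - a` on the set of the embeddings of `K i` into an algebraic closure of `ℚ_p`,
`v (p) = 1`. It takes the values `2 s a - a`, where `s` are the slopes of the abelian variety; nothing
is assumed about them (the Newton polygons are arbitrary).

Suppose that for each `i` the slope vectors of the numbers `π ⟨i, k⟩`, `k` in `J i`, are linearly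
independent over `ℚ`. Let `f z` be monic polynomials whose complex roots are conjugates of `π z`, for
instance the characteristic polynomials of Frobenius of the abelian varieties in the isogeny classes
of the `π z` over the field with `q` elements. Let `A` be an abelian variety over the field with
`Q = q ^ s` elements which is isogenous to a product of powers of abelian varieties coming from the
field with `q` elements, with characteristic polynomials `f z`, and let `Z` be any smooth projective
variety over the field with `Q` elements such that (`IsCase`)

* the eigenvalues `ρ` of Frobenius on the cohomology of `Z` and their conjugates are independent of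
  the fields `K i` (`Independent`): for each complex embedding `ψ` of `K i` some automorphism of `ℂ`
  fixes a power of `ρ` and is the complex conjugation on `ψ (K i)` (for instance, a power of `ρ`
  lies in a totally real field or in a field linearly disjoint from the normal closure of `K i`);
* homologically trivial self-correspondences of degree zero of `A × Z` are nilpotent, for instance
  the motive of `Z` is finite-dimensional in the sense of Kimura and O'Sullivan. This is known for
  all varieties dominated by products of curves.

Then (`PerfectPairingTimes`) the Kunneth formula `⨁ CH^i(A)_ℚ ⊗ CH^(n-i)(Z)_ℚ = CH^n(A × Z)_ℚ` holds,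
in the form `CH^n(A × Z)_ℚ = ⨁ D j × CH^(n - c j)(Z)_ℚ` with finitely many products `D j` of
divisors on `A`, of codimension `c j`, and **the pairing**
`CH^n(A × Z)_ℝ × CH^(d-n)(A × Z)_ℝ → ℝ`, `d = dim A + dim Z`, **of the question is perfect if and
only if the pairings** `CH^m(Z)_ℝ × CH^(dim Z - m)(Z)_ℝ → ℝ` **with** `n - dim A ≤ m ≤ n` **are
perfect.** So the conjecture of Beilinson for `A × Z` is equivalent to the one for `Z`, degree by
degree. If `Z` is a point, or a curve or a surface with the two properties, all pairings for `Z` are
perfect, and so are all pairings for `A × Z`; in particular for all products of powers of the abelian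
varieties that belong to the numbers `π z`.

The theorem also says that the condition cannot be weakened in this method: the only multiplicative
relations between `q` and the conjugates of the numbers `π z` are the trivial ones
(`MaximalAngleRank`) if and only if the slope vectors are linearly independent for each `i`.

What is new. Known results on the Tate conjecture for products of nonisogenous abelian varieties (in
the literature and in the starting files) treat at most one isogeny class for each CM field, or
dimensions up to five, or impose conditions on the slopes. Here the number of the isogeny classes
with the same field `K` is only limited by `[K : ℚ] / 2`, and the condition is necessary and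
sufficient. For instance any three pairwise nonisogenous ordinary abelian varieties over an algebraic
closure with multiplication by the same generic field satisfy it: their slope vectors have the
coordinates `± a`, and no three such vectors, no two of them proportional, are linearly dependent.

The framework (`TheoryData`, `IsChow`, `IsWeil`) and the reduction to the absence of multiplicative
relations are those of the starting files `Y1/CT` (used by `AllCMTypesTimes`) and of the files of
helper492 and helper484 used there.

The proof. Let `L` be a Galois extension of `ℚ` which contains the conjugates of the fields `K i`,
`G` its group, `X i` the set of the embeddings of `K i`, `u ⟨i, k⟩` the slope vector of `π ⟨i, k⟩`. A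
multiplicative relation between the conjugates of the numbers `π ⟨i, k⟩` and `q` gives odd
functions `z ⟨i, k⟩ : X i → ℤ` with `∑ z ⟨i, k⟩ (φ) u ⟨i, k⟩ (g φ) = 0` for all `g` in `G` (the sum over
`i`, `k` and `φ`). Fix `i`, `φ₀` in `X i` and `g`, and sum over all `g h`, `h` in the stabilizer `H` of
`φ₀`. If `φ` in some `X i'` is not `φ₀` or its conjugate then an element of `H` maps `φ` to its
conjugate, so that the sum of the numbers `u (g h φ)` over `h` is zero. What remains is
`∑ k, z ⟨i, k⟩ (φ₀) u ⟨i, k⟩ (g φ₀) = 0`. As `g φ₀` is an arbitrary element of `X i`, the vector
`∑ k, z ⟨i, k⟩ (φ₀) u ⟨i, k⟩` is zero, so that `z ⟨i, k⟩ (φ₀) = 0` if the slope vectors are linearly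
independent. Conversely, a linear relation with integral coefficients `m k` between the slope vectors
implies that all absolute values of `∏ (π ⟨i, k⟩ / conj π ⟨i, k⟩) ^ m k` are one, so that this is a
root of unity (Kronecker). For fields of degree `2 l` without quadratic subfields: if two embeddings
cannot be separated as in the definition of generic fields, there is a nonzero integral matrix on
`X`, invariant under `G`, odd in both variables and zero on the diagonal; on the odd functions, the
group ring of a group of order `l`, a nonconstant eigenvector would give a relation between the
`l`-th roots of unity; hence the eigenspace of the constant vector is a line stable under `G`, and `G`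
acts on it through a character which defines a quadratic subfield.
-/

set_option autoImplicit false

namespace Pool.Agent.V8H94.GC.BeilinsonPair

open NumberField Polynomial Pool.Agent.H977R3.CM Pool.Agent.Y137.MV Pool.Agent.Y1.CT
  Pool.Agent.V8H94.GC

/-- **The intersection pairings for `A × Z` are perfect if and only if those for `Z` are, degree by
degree, for all abelian varieties `A` whose Frobenius endomorphisms generate generic, pairwise
independent or equal CM fields, if for each field the slope vectors are linearly independent, and all
independent varieties `Z`.** -/
theorem result (p : ℕ) [Fact p.Prime] (a : ℕ) (ha : 0 < a) (I : Type) [Fintype I]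
    (K : I → Type) [∀ i, Field (K i)] [∀ i, NumberField (K i)] [∀ i, IsCMField (K i)]
    (hind : PairwiseIndep K) (hgen : ∀ i, IsGeneric (K i)) (J : I → Type) [∀ i, Fintype (J i)]
    (π : ∀ z : Σ i, J i, K z.1) (hπ : ∀ z, IsWeil p a (π z)) :
    ((∀ i, LinearIndependent ℚ
        fun k : J i => (slopeVec a (π ⟨i, k⟩) : (K i →+* PadicAlgCl p) → ℝ)) →
      ∀ f : (Σ i, J i) → ℤ[X], (∀ z, IsPolyOf (π z) (f z)) →
        PerfectPairingTimes (fun z : Σ i, J i => K z.1) (p ^ a) f) ∧
    (MaximalAngleRank (p ^ a) π ↔ ∀ i, LinearIndependent ℚ
      fun k : J i => (slopeVec a (π ⟨i, k⟩) : (K i →+* PadicAlgCl p) → ℝ)) ∧
    ∀ (E : Type) [Field E] [NumberField E] [IsCMField E], IsExample E → IsGeneric E := by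
  refine ⟨fun hlin f hf => ?_, ⟨fun h i => lin_of_angle (fun z => (hπ z).1)
    (fun z => (hπ z).2) h i, fun h => angle_of_lin hind hgen (fun z => (hπ z).2) h⟩,
    fun E _ _ _ h => isGeneric_of_example h⟩
  have hang := angle_of_lin hind hgen (fun z => (hπ z).2) hlin
  have hq : 1 < p ^ a := Nat.one_lt_pow ha.ne' (Fact.out : p.Prime).one_lt
  have hone : Independent (fun z : Σ i, J i => K z.1) 1 := by
    refine ⟨one_ne_zero, fun i ψ => ⟨starRingAut, 1, one_pos, by simp, fun x => ?_⟩⟩
    rfl
  have hR : NoRel f (p ^ a) (Independent fun z : Σ i, J i => K z.1) :=
    ⟨fun i => (hf i).1, hone, fun s hs ρ hρ =>
      exactPair_of_angle hang (fun z => (hπ z).2) f hf s hs ρ (unrelated_of_independent hρ)⟩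
  exact perfectPairingTimes hq hR

end Pool.Agent.V8H94.GC.BeilinsonPair
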