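import Mathlib
import Pool.Agent.V8H94.GC.Converse
import Pool.Agent.V8H94.GC.PrimeDegree
import Pool.Agent.Y1.CT.CodimNum

/-!
# The Tate conjecture for products of arbitrary varieties with several nonisogenous abelian varieties
with multiplication by the same generic CM field

Let `K i` (`i` in a finite set) be CM fields with the following two properties.

* They are pairwise independent: for `i ≠ i'` and all complex embeddings `φ` of `K i` and `ψ` of
  `K i'` some automorphism of `ℂ` is the identity on `φ (K i)` and the complex conjugation on
  `ψ (K i')` (no condition if there is only one field).
* Each `K = K i` is *generic* (`IsGeneric`): for any two complex embeddings `φ`, `ψ` of `K` which are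
  neither equal nor complex conjugate some automorphism of `ℂ` is the identity on `φ (K)` and the
  complex conjugation on `ψ (K)`. In other words, the functions on the set of the embeddings of `K`
  which change their sign under complex conjugation form an absolutely irreducible representation
  of the group of automorphisms of `ℂ`. This is so for instance if the Galois group is as large as
  possible (it contains all changes of signs). The theorem contains a proof that all CM fields of
  the following kinds (`IsExample`) are generic: imaginary quadratic fields, fields of degree four
  which are not normal over `ℚ`, fields of degree `2 l`, `l` an odd prime number, which contain no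
  quadratic field.

For each `i` let `π ⟨i, k⟩` (`k` in a finite set `J i`) be **any number of Weil numbers in the same
field** `K i` (`IsWeil`), for `q = p ^ a`. They belong to abelian varieties over the field with `q`
elements, which need not be isogenous for different `k`. The slope vector (`slopeVec`) of `π` is the
function `τ ↦ 2 v (τ π) - a` on the set of the embeddings of `K i` into an algebraic closure of `ℚ_p`,
`v (p) = 1`. It takes the values `2 s a - a`, where `s` are the slopes of the abelian variety; nothing
is assumed about them (the Newton polygons are arbitrary).

**Theorem.** (1) The only multiplicative relations between `q` and the conjugates of all the numbers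
`π ⟨i, k⟩` are the trivial ones, given by `π * conj π = q` (`MaximalAngleRank`), if and only if for each
`i` the slope vectors of the numbers `π ⟨i, k⟩`, `k` in `J i`, are linearly independent over `ℚ`.

(2) Suppose that this is so. Let `f z` be monic polynomials whose complex roots are conjugates of
`π z`, for instance the characteristic polynomials of Frobenius of the abelian varieties in the
isogeny classes of the `π z` over the field with `q` elements. Let `A` be an abelian variety over the
field with `Q = q ^ s` elements which is isogenous to a product of powers of abelian varieties coming
from the field with `q` elements, with characteristic polynomials `f z`, and let `Z` be any smooth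
projective variety over the field with `Q` elements such that the eigenvalues `ρ` of Frobenius on
the cohomology of `Z` and their conjugates are unrelated to the fields `K i` (`UnrelatedTo`): a
function `n` on the complex embeddings of `K i` with `n (conj φ) = - n φ` which is invariant under all
automorphisms of `ℂ` that fix a power of `ρ` is zero (for instance, a power of `ρ` lies in a totally
real field or in a field linearly disjoint from the normal closures of the `K i`; for generic fields
also if the degree of `ρ` is less than `[K i : ℚ]`). Then for every `c` **the Tate conjecture holds for
`A × Z` in codimension `c` if and only if it holds for `Z` in the codimensions `c - i`,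
`0 ≤ i ≤ dim A`**; the same is true for the Tate conjecture together with the semisimplicity of the
eigenvalue `Q ^ c` (`TateTimes`), and for the equality of homological and numerical equivalence
(`HomNumTimes`). As all `s` are allowed this holds over all finite extensions of the ground field. If
`Z` is a point this is the Tate conjecture for `A`, in all codimensions: for all products of powers of
the abelian varieties that belong to the numbers `π z`. The cohomology is any Weil cohomology with
algebraically closed coefficient field, for instance `ℓ`-adic or crystalline cohomology with extended
coefficients.

What is new. Known results on the Tate conjecture for products of nonisogenous abelian varieties (in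
the literature and in the starting files) treat at most one isogeny class for each CM field, or
dimensions up to five, or impose conditions on the slopes. Here the number of the isogeny classes
with the same field `K` is only limited by `[K : ℚ] / 2`, and the condition is necessary and
sufficient. For instance any three pairwise nonisogenous ordinary abelian varieties over an algebraic
closure with multiplication by the same generic field satisfy it: their slope vectors have the
coordinates `± a`, and no three such vectors, no two of them proportional, are linearly dependent.

The framework (`TheoryData`, `IsChow`, `IsWeil`) and the reduction to the absence of multiplicative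
relations (maximal angle rank) are those of the starting file `AllCMTypesTimes` and of the files it
uses.

The proof. Let `L` be a Galois extension of `ℚ` which contains the conjugates of the fields `K i`,
`G` its group, `X i` the set of the embeddings of `K i`, `u ⟨i, k⟩` the slope vector of `π ⟨i, k⟩`. A
multiplicative relation between the conjugates of the numbers `π ⟨i, k⟩` and `q` gives odd
functions `z ⟨i, k⟩ : X i → ℤ` with `∑ z ⟨i, k⟩ (φ) u ⟨i, k⟩ (g φ) = 0` for all `g` in `G` (the sum over
`i`, `k` and `φ`). Fix `i`, `φ₀` in `X i` and `g`, and sum over all `g h`, `h` in the stabilizer `H` of
`φ₀`. If `φ` in some `X i'` is not `φ₀` or its conjugate then an element of `H` maps `φ` to its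
conjugate, so that the sum of the numbers `u (g h φ)` over `h` is zero. What remains is
`∑ k, z ⟨i, k⟩ (φ₀) u ⟨i, k⟩ (g φ₀) = 0`. As `g φ₀` is an arbitrary element of `X i`, the vector
`∑ k, z ⟨i, k⟩ (φ₀) u ⟨i, k⟩` is zero, so that `z ⟨i, k⟩ (φ₀) = 0` if the slope vectors are linearly
independent. Conversely, a linear relation with integral coefficients `m k` between the slope vectors
implies that all absolute values of `∏ (π ⟨i, k⟩ / conj π ⟨i, k⟩) ^ m k` are one, so that this is a
root of unity (Kronecker). For fields of degree `2 l` without quadratic subfields: if two embeddings
cannot be separated as in the definition of generic fields, there is a nonzero integral matrix on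
`X`, invariant under `G`, odd in both variables and zero on the diagonal; on the odd functions, the
group ring of a group of order `l`, a nonconstant eigenvector would give a relation between the
`l`-th roots of unity; hence the eigenspace of the constant vector is a line stable under `G`, and `G`
acts on it through a character which defines a quadratic subfield.
-/

set_option autoImplicit false

namespace Pool.Agent.V8H94.GC.GenericCMFields

open NumberField Polynomial Pool.Agent.H977R3.CM Pool.Agent.Y137.MV Pool.Agent.Y1.CT
  Pool.Agent.V8H94.GC

/-- **The Tate conjecture for `A × Z` in codimension `c` is equivalent to the one for `Z` in the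
codimensions `c - i`, `0 ≤ i ≤ dim A`, for all abelian varieties `A` whose Frobenius endomorphisms
generate generic, pairwise independent or equal CM fields, if for each field the slope vectors are
linearly independent; this is so if and only if the angle rank is maximal.** -/
theorem result (p : ℕ) [Fact p.Prime] (a : ℕ) (ha : 0 < a) (I : Type) [Fintype I]
    (K : I → Type) [∀ i, Field (K i)] [∀ i, NumberField (K i)] [∀ i, IsCMField (K i)]
    (hind : PairwiseIndep K) (hgen : ∀ i, IsGeneric (K i)) (J : I → Type) [∀ i, Fintype (J i)]
    (π : ∀ z : Σ i, J i, K z.1) (hπ : ∀ z, IsWeil p a (π z)) :
    (MaximalAngleRank (p ^ a) π ↔ ∀ i, LinearIndependent ℚ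
      fun k : J i => (slopeVec a (π ⟨i, k⟩) : (K i →+* PadicAlgCl p) → ℝ)) ∧
    ((∀ i, LinearIndependent ℚ
        fun k : J i => (slopeVec a (π ⟨i, k⟩) : (K i →+* PadicAlgCl p) → ℝ)) →
      ∀ f : (Σ i, J i) → ℤ[X], (∀ z, IsPolyOf (π z) (f z)) →
        TateTimes (fun z : Σ i, J i => K z.1) (p ^ a) f ∧
          HomNumTimes (fun z : Σ i, J i => K z.1) (p ^ a) f) ∧
    ∀ (E : Type) [Field E] [NumberField E] [IsCMField E], IsExample E → IsGeneric E := by
  refine ⟨⟨fun h i => lin_of_angle (fun z => (hπ z).1) (fun z => (hπ z).2) h i,
    fun h => angle_of_lin hind hgen (fun z => (hπ z).2) h⟩, fun hlin f hf => ?_,
    fun E _ _ _ h => isGeneric_of_example h⟩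
  have hang := angle_of_lin hind hgen (fun z => (hπ z).2) hlin
  have hq : 1 < p ^ a := Nat.one_lt_pow ha.ne' (Fact.out : p.Prime).one_lt
  have hR : NoRel f (p ^ a) (Unrelated fun z : Σ i, J i => K z.1) :=
    ⟨fun z => (hf z).1, unrelated_one _, fun s hs ρ hρ =>
      exactPair_of_angle hang (fun z => (hπ z).2) f hf s hs ρ hρ⟩
  exact ⟨tateTimes hq hR, homNumTimes hq hR⟩

end Pool.Agent.V8H94.GC.GenericCMFields
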